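import Pool.Agent.H.MP_027d00_lc.mux.Khr

/-!
# Weighted size of formulas, product distributions, the hybrid argument
-/

set_option autoImplicit false

open Finset

namespace Pool.Agent.H.MP_027d00_lc.Iter

open Pool.Agent.H.MP_027d00_lc.UComp Pool.Agent.H.MP_027d00_lc.Sel

/-- The sum of the weights of the leaves. -/
def cost {V : Type} (c : V → ℝ) : Fm V → ℝ
  | .const _ => 0
  | .lit v _ => c v
  | .and F G => cost c F + cost c G
  | .or F G => cost c F + cost c G

/-- `h` has a formula of weighted size at most `s`. -/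
def Cs {V : Type} (c : V → ℝ) (s : ℝ) (h : (V → Bool) → Bool) : Prop :=
  ∃ F : Fm V, cost c F ≤ s ∧ ∀ x, F.eval x = h x

theorem cost_nonneg {V : Type} {c : V → ℝ} (hc : ∀ v, 0 ≤ c v) (F : Fm V) : 0 ≤ cost c F := by
  induction F with
  | const b => exact le_rfl
  | lit v b => exact hc v
  | and F G ihF ihG => exact add_nonneg ihF ihG
  | or F G ihF ihG => exact add_nonneg ihF ihG

theorem cost_neg {V : Type} (c : V → ℝ) (F : Fm V) : cost c (Comp.neg F) = cost c F := by
  induction F with
  | const b => rfl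
  | lit v b => rfl
  | and F G ihF ihG => simp only [Comp.neg, cost, ihF, ihG]
  | or F G ihF ihG => simp only [Comp.neg, cost, ihF, ihG]

theorem cost_mono {V : Type} {c c' : V → ℝ} (h : ∀ v, c v ≤ c' v) (F : Fm V) :
    cost c F ≤ cost c' F := by
  induction F with
  | const b => exact le_rfl
  | lit v b => exact h v
  | and F G ihF ihG => exact add_le_add ihF ihG
  | or F G ihF ihG => exact add_le_add ihF ihG

theorem cost_smul {V : Type} (r : ℝ) (c : V → ℝ) (F : Fm V) :
    cost (fun v => r * c v) F = r * cost c F := by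
  induction F with
  | const b => simp [cost]
  | lit v b => rfl
  | and F G ihF ihG => simp only [cost, ihF, ihG]; ring
  | or F G ihF ihG => simp only [cost, ihF, ihG]; ring

theorem cost_const {V : Type} (r : ℝ) (F : Fm V) : cost (fun _ => r) F = r * F.size := by
  induction F with
  | const b => simp [cost, Fm.size]
  | lit v b => simp [cost, Fm.size]
  | and F G ihF ihG => simp only [cost, Fm.size, ihF, ihG]; push_cast; ring
  | or F G ihF ihG => simp only [cost, Fm.size, ihF, ihG]; push_cast; ring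

theorem cost_subst {V W : Type} {c : V → ℝ} {d : W → ℝ} (σ : V → W ⊕ Bool)
    (h : ∀ v, Sum.elim d (fun _ => 0) (σ v) ≤ c v) (F : Fm V) :
    cost d (substF σ F) ≤ cost c F := by
  induction F with
  | const b => exact le_rfl
  | lit v b =>
    have := h v
    simp only [substF]
    cases hσ : σ v with
    | inl w => rw [hσ] at this; exact this
    | inr b' => rw [hσ] at this; exact this
  | and F G ihF ihG => exact add_le_add ihF ihG
  | or F G ihF ihG => exact add_le_add ihF ihG

theorem Cs.subst {V W : Type} {c : V → ℝ} {d : W → ℝ} {s : ℝ} {h : (V → Bool) → Bool}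
    (hh : Cs c s h) (σ : V → W ⊕ Bool) (hσ : ∀ v, Sum.elim d (fun _ => 0) (σ v) ≤ c v) :
    Cs d s (fun y : W → Bool => h (fun v => Sum.elim y id (σ v))) := by
  obtain ⟨F, hF, he⟩ := hh
  exact ⟨substF σ F, (cost_subst σ hσ F).trans hF, fun y => by rw [substF_eval, he]⟩

/-- Rows. -/
abbrev Rw (m : ℕ) (V : Type) : Type := Fin m → V → Bool

/-- Functions of the rows of weighted size at most `s`. -/
def CsM {V : Type} {m : ℕ} (c : V → ℝ) (s : ℝ) (h : Rw m V → Bool) : Prop :=
  Cs (fun v : Fin m × V => c v.2) s (fun x => h (fun i v => x (i, v)))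

theorem CsM.head {V : Type} {m : ℕ} {c : V → ℝ} (hc : ∀ v, 0 ≤ c v) {s : ℝ}
    {h : Rw (m + 1) V → Bool} (hh : CsM c s h) (Y : Rw m V) :
    Cs c s (fun x : V → Bool => h (Fin.cons x Y)) := by
  have h1 := Cs.subst (W := V) (d := c) hh
    (fun v => Fin.cases (motive := fun _ => V ⊕ Bool) (Sum.inl v.2)
      (fun i => Sum.inr (Y i v.2)) v.1) (by
      rintro ⟨i, v⟩
      refine Fin.cases ?_ (fun i => ?_) i
      · simp
      · simpa using hc v)
  have e : (fun x : V → Bool => h (Fin.cons x Y)) = fun y : V → Bool =>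
      h (fun i j => Sum.elim y id (Fin.cases (motive := fun _ => V ⊕ Bool) (Sum.inl j)
      (fun i => Sum.inr (Y i j)) i)) := by
    funext x
    congr 1
    funext i j
    refine Fin.cases ?_ (fun i => ?_) i <;> simp
  rw [e]
  exact h1

theorem CsM.tail {V : Type} {m : ℕ} {c : V → ℝ} (hc : ∀ v, 0 ≤ c v) {s : ℝ}
    {h : Rw (m + 1) V → Bool} (hh : CsM c s h) (x : V → Bool) :
    CsM c s (fun Y : Rw m V => h (Fin.cons x Y)) := by
  have h1 := Cs.subst (W := Fin m × V) (d := fun v => c v.2) hh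
    (fun v => Fin.cases (motive := fun _ => (Fin m × V) ⊕ Bool) (Sum.inr (x v.2))
      (fun i => Sum.inl (i, v.2)) v.1) (by
      rintro ⟨i, v⟩
      refine Fin.cases ?_ (fun i => ?_) i
      · simpa using hc v
      · simp)
  have e : (fun z : Fin m × V → Bool => h (Fin.cons x (fun i j => z (i, j)))) =
      fun y : Fin m × V → Bool =>
      h (fun i j => Sum.elim y id (Fin.cases (motive := fun _ => (Fin m × V) ⊕ Bool)
        (Sum.inr (x j)) (fun i => Sum.inl (i, j)) i)) := by
    funext z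
    congr 1
    funext i j
    refine Fin.cases ?_ (fun i => ?_) i <;> simp
  show Cs _ s (fun z : Fin m × V → Bool => h (Fin.cons x (fun i j => z (i, j))))
  rw [e]
  exact h1

section

variable {V : Type} [Fintype V] [DecidableEq V]

/-- The product distribution. -/
noncomputable def W {m : ℕ} (μ : Bool → (V → Bool) → ℝ) (a : Fin m → Bool) (X : Rw m V) : ℝ :=
  ∏ i, μ (a i) (X i)

omit [Fintype V] [DecidableEq V] in
theorem W_nonneg {m : ℕ} {μ : Bool → (V → Bool) → ℝ} (h0 : ∀ b x, 0 ≤ μ b x)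
    (a : Fin m → Bool) (X : Rw m V) : 0 ≤ W μ a X :=
  prod_nonneg fun _ _ => h0 _ _

omit [Fintype V] [DecidableEq V] in
theorem W_supp {m : ℕ} {μ : Bool → (V → Bool) → ℝ} {g : (V → Bool) → Bool}
    (hs : ∀ b x, μ b x ≠ 0 → g x = b) {a : Fin m → Bool} {X : Rw m V} (h : W μ a X ≠ 0) :
    (fun i => g (X i)) = a := by
  funext i
  exact hs _ _ (fun hz => h (prod_eq_zero (mem_univ i) hz))

theorem sum_cons {m : ℕ} (μ : Bool → (V → Bool) → ℝ) (a : Fin (m + 1) → Bool)
    (G : Rw (m + 1) V → ℝ) : ∑ X, W μ a X * G X =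
      ∑ x, μ (a 0) x * ∑ Y : Rw m V, W μ (fun i => a i.succ) Y * G (Fin.cons x Y) := by
  rw [← (Fin.consEquiv (fun _ : Fin (m + 1) => V → Bool)).sum_comp, Fintype.sum_prod_type]
  refine sum_congr rfl fun x _ => ?_
  rw [mul_sum]
  refine sum_congr rfl fun Y _ => ?_
  have h1 : (Fin.consEquiv (fun _ : Fin (m + 1) => V → Bool)) (x, Y) =
      (Fin.cons x Y : Rw (m + 1) V) := rfl
  rw [h1]
  have h2 : W μ a (Fin.cons x Y : Rw (m + 1) V) = μ (a 0) x * W μ (fun i => a i.succ) Y := by
    unfold W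
    rw [Fin.prod_univ_succ]
    simp
  rw [h2]
  ring

theorem W_sum {μ : Bool → (V → Bool) → ℝ} (h1 : ∀ b, ∑ x, μ b x = 1) :
    ∀ {m : ℕ} (a : Fin m → Bool), ∑ X, W μ a X = 1 := by
  intro m
  induction m with
  | zero =>
    intro a
    simp [W]
  | succ m ih =>
    intro a
    have h2 := sum_cons μ a (fun _ => 1)
    simp only [mul_one] at h2
    rw [h2]
    simp only [ih, mul_one, h1]

/-- The hybrid argument. -/
theorem hybrid {μ : Bool → (V → Bool) → ℝ} (h0 : ∀ b x, 0 ≤ μ b x)
    (h1 : ∀ b, ∑ x, μ b x = 1) {c : V → ℝ} (hc : ∀ v, 0 ≤ c v) {s k τ : ℝ} (hk : 1 ≤ k)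
    (hτ : 0 ≤ τ)
    (hE : ∀ h : (V → Bool) → Bool, Cs c s h →
      ∑ x, μ true x * ind (h x) ≤ k * ∑ x, μ false x * ind (h x) + τ) :
    ∀ (m : ℕ) (a : Fin m → Bool) (h : Rw m V → Bool), CsM c s h →
      ∑ X, W μ a X * ind (h X) ≤
        k ^ m * ∑ X, W μ (fun _ : Fin m => false) X * ind (h X) + m * k ^ m * τ := by
  intro m
  induction m with
  | zero =>
    intro a h _
    have : a = fun _ => false := funext fun i => i.elim0
    rw [this]
    simp
  | succ m ih =>
    intro a h hh
    -- one row, any value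
    have hE' : ∀ (b : Bool) (h : (V → Bool) → Bool), Cs c s h →
        ∑ x, μ b x * ind (h x) ≤ k * ∑ x, μ false x * ind (h x) + τ := by
      intro b h hh
      cases b with
      | true => exact hE h hh
      | false =>
        have : 0 ≤ ∑ x, μ false x * ind (h x) :=
          sum_nonneg fun x _ => mul_nonneg (h0 _ _) (ind_nonneg _)
        nlinarith
    have hkm : (1 : ℝ) ≤ k ^ m := one_le_pow₀ hk
    have e1 : ∑ X, W μ a X * ind (h X) ≤ ∑ x, μ (a 0) x *
        (k ^ m * ∑ Y : Rw m V, W μ (fun _ : Fin m => false) Y * ind (h (Fin.cons x Y)) +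
          m * k ^ m * τ) := by
      rw [sum_cons]
      exact sum_le_sum fun x _ =>
        mul_le_mul_of_nonneg_left (ih _ _ (hh.tail hc x)) (h0 _ _)
    have e2 : ∑ x, μ (a 0) x *
        (k ^ m * ∑ Y : Rw m V, W μ (fun _ : Fin m => false) Y * ind (h (Fin.cons x Y)) +
          m * k ^ m * τ) = k ^ m * (∑ Y : Rw m V, W μ (fun _ : Fin m => false) Y *
            ∑ x, μ (a 0) x * ind (h (Fin.cons x Y))) + m * k ^ m * τ := by
      simp only [mul_add, sum_add_distrib]
      rw [← sum_mul, h1, one_mul]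
      congr 1
      simp only [mul_sum]
      rw [sum_comm]
      refine sum_congr rfl fun Y _ => sum_congr rfl fun x _ => by ring
    have e3 : ∑ Y : Rw m V, W μ (fun _ : Fin m => false) Y *
        ∑ x, μ (a 0) x * ind (h (Fin.cons x Y)) ≤
        ∑ Y : Rw m V, W μ (fun _ : Fin m => false) Y *
          (k * ∑ x, μ false x * ind (h (Fin.cons x Y)) + τ) :=
      sum_le_sum fun Y _ =>
        mul_le_mul_of_nonneg_left (hE' _ _ (hh.head hc Y)) (W_nonneg h0 _ _)
    have e4 : ∑ Y : Rw m V, W μ (fun _ : Fin m => false) Y *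
          (k * ∑ x, μ false x * ind (h (Fin.cons x Y)) + τ) =
          k * ∑ X, W μ (fun _ : Fin (m + 1) => false) X * ind (h X) + τ := by
      rw [sum_cons]
      simp only [mul_add, sum_add_distrib]
      rw [← sum_mul, W_sum h1, one_mul]
      congr 1
      simp only [mul_sum]
      rw [sum_comm]
      refine sum_congr rfl fun x _ => sum_congr rfl fun Y _ => by ring
    have e5 := mul_le_mul_of_nonneg_left (e3.trans e4.le) (by linarith : (0 : ℝ) ≤ k ^ m)
    have hkm' : k ^ m ≤ k ^ (m + 1) := pow_le_pow_right₀ hk (Nat.le_succ m)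
    rw [e2] at e1
    refine e1.trans ?_
    push_cast
    have e6 : k ^ m * τ ≤ k ^ (m + 1) * τ := mul_le_mul_of_nonneg_right hkm' hτ
    have e7 : (m : ℝ) * (k ^ m * τ) ≤ m * (k ^ (m + 1) * τ) :=
      mul_le_mul_of_nonneg_left e6 (by positivity)
    have e8 : k ^ m * (k * ∑ X, W μ (fun _ : Fin (m + 1) => false) X * ind (h X) + τ) =
        k ^ (m + 1) * ∑ X, W μ (fun _ : Fin (m + 1) => false) X * ind (h X) + k ^ m * τ := by
      rw [pow_succ]; ring
    rw [e8] at e5
    nlinarith

end

end Pool.Agent.H.MP_027d00_lc.Iter
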