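import Pool.Agent.H.MP_027d00_lc.ucomp.Defs

/-!
# The iterated selection function

`F m g 0 = g`; an input of `F m g (k + 1)` consists of the data of level `k + 1` (one bit for every
address in `{0,1}^m`) and of `m` inputs of `F m g k`; the value is the data bit whose address is the
vector of the `m` values of `F m g k`.
-/

set_option autoImplicit false

namespace Pool.Agent.H.MP_027d00_lc.Iter

open Pool.Agent.H.MP_027d00_lc.UComp

/-- The variables of the iterated selection function: level `0` are the variables of the inner
function, level `k + 1` adds one data bit for every address. -/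
def Var (m : ℕ) (V : Type) : ℕ → Type
  | 0 => V
  | k + 1 => (Fin m → Bool) ⊕ (Fin m × Var m V k)

/-- The iterated selection function. -/
def F (m : ℕ) {V : Type} (g : (V → Bool) → Bool) : (k : ℕ) → (Var m V k → Bool) → Bool
  | 0, x => g x
  | k + 1, x => x (Sum.inl (fun i => F m g k (fun v => x (Sum.inr (i, v)))))

/-- The level of a variable. -/
def level (m : ℕ) (V : Type) : (k : ℕ) → Var m V k → ℕ
  | 0, _ => 0
  | k + 1, Sum.inl _ => k + 1
  | k + 1, Sum.inr (_, v) => level m V k v

/-- The number of leaves of a formula that are labelled by a variable with property `p`. -/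
def cnt {V : Type} (p : V → Bool) : Fm V → ℕ
  | .const _ => 0
  | .lit v _ => if p v then 1 else 0
  | .and G H => cnt p G + cnt p H
  | .or G H => cnt p G + cnt p H

/-- The number of leaves of a formula that are labelled by a variable of level `j`. -/
def leaves {m : ℕ} {V : Type} {k : ℕ} (j : ℕ) (Φ : Fm (Var m V k)) : ℕ :=
  cnt (fun v => level m V k v == j) Φ

end Pool.Agent.H.MP_027d00_lc.Iter
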