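import Mathlib

/-!
# Few reads: the consequence of the inequality for the leaf numbers
-/

set_option autoImplicit false

namespace Pool.Agent.H.MP_027d00_lc.Iter

open Finset

theorem few_half (k : ℕ) : 2 * ((3 ^ k - 1) / 2) + 1 = 3 ^ k := by
  have h1 : ∀ k : ℕ, ∃ a : ℕ, 3 ^ k = 2 * a + 1 := by
    intro k
    induction k with
    | zero => exact ⟨0, rfl⟩
    | succ k ih =>
      obtain ⟨a, ha⟩ := ih
      exact ⟨3 * a + 1, by rw [pow_succ, ha]; ring⟩
  obtain ⟨a, ha⟩ := h1 k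
  omega

theorem few_three (k : ℕ) : (3 ^ (k + 1) - 3) / 2 = 3 * ((3 ^ k - 1) / 2) := by
  have h1 := few_half k
  rw [pow_succ]
  omega

theorem few_sum (k : ℕ) : ∑ j ∈ range k, 2 * 3 ^ j = 2 * ((3 ^ k - 1) / 2) := by
  induction k with
  | zero => rfl
  | succ k ih =>
    rw [sum_range_succ, ih]
    have h1 := few_half k
    have h2 := few_half (k + 1)
    rw [pow_succ] at h2 ⊢
    omega

theorem few_wsum (k : ℕ) :
    ∑ j ∈ range k, (k - j) * (2 * 3 ^ j) + k = 3 * ((3 ^ k - 1) / 2) := by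
  induction k with
  | zero => rfl
  | succ k ih =>
    have h1 : ∑ j ∈ range (k + 1), (k + 1 - j) * (2 * 3 ^ j) =
        ∑ j ∈ range k, (k - j) * (2 * 3 ^ j) + ∑ j ∈ range (k + 1), 2 * 3 ^ j := by
      have h2 : ∀ j ∈ range (k + 1), (k + 1 - j) * (2 * 3 ^ j) =
          (k - j) * (2 * 3 ^ j) + 2 * 3 ^ j := by
        intro j hj
        have hj' : j ≤ k := Nat.lt_succ_iff.1 (mem_range.1 hj)
        have h3 : k + 1 - j = (k - j) + 1 := by omega
        rw [h3, add_mul, one_mul]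
      rw [sum_congr rfl h2, sum_add_distrib, sum_range_succ (fun j => (k - j) * (2 * 3 ^ j)),
        Nat.sub_self, zero_mul, add_zero]
    rw [h1, few_sum]
    have h4 := few_half k
    have h5 := few_half (k + 1)
    rw [pow_succ] at h5 ⊢
    omega

/-- If the data of level `j + 1` are read at most `D * R ^ (k - j)` times, then the inequality for the
numbers of leaves becomes a lower bound for the number of leaves of level `0`. -/
theorem few_reads {R D L A B k : ℕ} (hR : 0 < R) (s : ℕ → ℕ)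
    (hM : R ^ ((3 ^ (k + 1) - 3) / 2) * L ≤
      A * B ^ ((3 ^ k - 1) / 2) * s 0 * ∏ j ∈ range k, s (j + 1) ^ (2 * 3 ^ j))
    (hs : ∀ j < k, s (j + 1) ≤ D * R ^ (k - j)) :
    R ^ k * L ≤ A * (B * D ^ 2) ^ ((3 ^ k - 1) / 2) * s 0 := by
  obtain ⟨e, he⟩ : ∃ e, e = (3 ^ k - 1) / 2 := ⟨_, rfl⟩
  obtain ⟨g, hg⟩ : ∃ g, g = ∑ j ∈ range k, (k - j) * (2 * 3 ^ j) := ⟨_, rfl⟩
  have hge : g + k = 3 * e := by rw [hg, he]; exact few_wsum k
  have h1 : ∏ j ∈ range k, s (j + 1) ^ (2 * 3 ^ j) ≤ D ^ (2 * e) * R ^ g := by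
    calc ∏ j ∈ range k, s (j + 1) ^ (2 * 3 ^ j)
        ≤ ∏ j ∈ range k, (D * R ^ (k - j)) ^ (2 * 3 ^ j) :=
          prod_le_prod' fun j hj => Nat.pow_le_pow_left (hs j (mem_range.1 hj)) _
      _ = ∏ j ∈ range k, (D ^ (2 * 3 ^ j) * R ^ ((k - j) * (2 * 3 ^ j))) :=
          prod_congr rfl fun j _ => by rw [mul_pow, ← pow_mul]
      _ = D ^ (2 * e) * R ^ g := by
          rw [prod_mul_distrib, prod_pow_eq_pow_sum, prod_pow_eq_pow_sum, few_sum, ← hg, ← he]
  rw [few_three, ← he, ← hge] at hM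
  rw [← he]
  have h2 : R ^ g * (R ^ k * L) ≤ R ^ g * (A * (B * D ^ 2) ^ e * s 0) := by
    calc R ^ g * (R ^ k * L) = R ^ (g + k) * L := by rw [pow_add, mul_assoc]
      _ ≤ A * B ^ e * s 0 * ∏ j ∈ range k, s (j + 1) ^ (2 * 3 ^ j) := hM
      _ ≤ A * B ^ e * s 0 * (D ^ (2 * e) * R ^ g) := Nat.mul_le_mul_left _ h1
      _ = R ^ g * (A * (B * D ^ 2) ^ e * s 0) := by
          rw [mul_pow, ← pow_mul]
          ring
  exact Nat.le_of_mul_le_mul_left h2 (pow_pos hR g)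

end Pool.Agent.H.MP_027d00_lc.Iter
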