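import Pool.Agent.H.MP_027d00_lc.iter.Mass

/-!
# The mass of a small formula, and the decomposition of a large one
-/

set_option autoImplicit false

open Finset

namespace Pool.Agent.H.MP_027d00_lc.Iter

open Pool.Agent.H.MP_027d00_lc.UComp Pool.Agent.H.MP_027d00_lc.Sel

variable {Z V : Type} [Fintype Z] [DecidableEq Z] [Fintype V] [DecidableEq V] {m : ℕ}

theorem mass_nonneg {μ : Bool → (V → Bool) → ℝ} (h0 : ∀ b x, 0 ≤ μ b x)
    (a : Z → Fin m → Bool) (Φ : Fm (Z ⊕ (Fin m × V))) : 0 ≤ mass μ a Φ :=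
  sum_nonneg fun _ _ => sum_nonneg fun _ _ => mul_nonneg (W_nonneg h0 _ _)
    (sum_nonneg fun _ _ => ind_nonneg _)

/-- The mass of a formula with few leaves of both kinds. -/
theorem light {μ : Bool → (V → Bool) → ℝ} (h0 : ∀ b x, 0 ≤ μ b x)
    (h1 : ∀ b, ∑ x, μ b x = 1) {c : V → ℝ} (hc : ∀ v, 0 ≤ c v) (hm : 1 ≤ m) {t : ℕ} (ht : 1 ≤ t)
    (hE : ∀ h : (V → Bool) → Bool, Cs c 1 h →
      ∑ x, μ true x * ind (h x) ≤
        (1 + 1 / (8 * (m : ℝ))) * ∑ x, μ false x * ind (h x) + 1 / (2 * (m : ℝ) * t))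
    (a : Z → Fin m → Bool) (Φ : Fm (Z ⊕ (Fin m × V))) (hw : low c Φ ≤ 1 / 2)
    (hd : dataLeaves Φ ≤ t ^ 2) :
    mass μ a Φ ≤ 8 / 7 * (t : ℝ) * 2 ^ Fintype.card Z := by
  have hmR : (1 : ℝ) ≤ m := by exact_mod_cast hm
  have htR : (1 : ℝ) ≤ t := by exact_mod_cast ht
  have hm0 : (0 : ℝ) < m := by linarith
  have ht0 : (0 : ℝ) < t := by linarith
  set k : ℝ := 1 + 1 / (8 * (m : ℝ)) with hk
  have hk1 : 1 ≤ k := by rw [hk]; have : 0 ≤ 1 / (8 * (m : ℝ)) := by positivity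
                         linarith
  have hkm : k ^ m ≤ 8 / 7 := pow_k_le hm
  have hkm0 : 0 ≤ k ^ m := by positivity
  set τ : ℝ := 1 / (2 * (m : ℝ) * t) with hτ
  have hτ0 : 0 ≤ τ := by positivity
  have hyb := Iter.hybrid h0 h1 hc hk1 hτ0 hE m
  set N : ℝ := 2 ^ Fintype.card Z with hN
  have hN0 : 0 ≤ N := by positivity
  have hcard : (Fintype.card (Z → Bool) : ℝ) = N := by
    rw [Fintype.card_fun, Fintype.card_bool]
    push_cast
    rfl
  -- only the data variables that occur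
  have e1 : mass μ a Φ = ∑ z ∈ occ Φ, ∑ p, ∑ X, Iter.W μ (a z) X * ind (Iter.sn Φ z p X) := by
    have e : mass μ a Φ = ∑ z, ∑ p, ∑ X, Iter.W μ (a z) X * ind (Iter.sn Φ z p X) := by
      unfold mass
      refine sum_congr rfl fun z _ => ?_
      simp only [mul_sum]
      rw [sum_comm]
    rw [e]
    symm
    refine sum_subset (subset_univ _) fun z _ hz => ?_
    refine sum_eq_zero fun p _ => sum_eq_zero fun X _ => ?_
    have : Iter.sn Φ z p X = false := by
      simp [Iter.sn, eval_flip Φ hz]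
    simp [this, ind]
  have e2 : ∀ z, ∀ p : Z → Bool, ∑ X, Iter.W μ (a z) X * ind (Iter.sn Φ z p X) ≤
      k ^ m * ∑ X, Iter.W μ (fun _ : Fin m => false) X * ind (Iter.sn Φ z p X) + m * k ^ m * τ :=
    fun z p => hyb (a z) _ (sn_cs Φ (by linarith) z p)
  have e3 : mass μ a Φ ≤ k ^ m * (∑ z ∈ occ Φ, ∑ p, ∑ X, Iter.W μ (fun _ : Fin m => false) X *
      ind (Iter.sn Φ z p X)) + (occ Φ).card * N * (m * k ^ m * τ) := by
    rw [e1]
    calc ∑ z ∈ occ Φ, ∑ p, ∑ X, Iter.W μ (a z) X * ind (Iter.sn Φ z p X)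
        ≤ ∑ z ∈ occ Φ, ∑ p, (k ^ m * ∑ X, Iter.W μ (fun _ : Fin m => false) X * ind (Iter.sn Φ z p X) +
          m * k ^ m * τ) := sum_le_sum fun z _ => sum_le_sum fun p _ => e2 z p
      _ = _ := by
          simp only [sum_add_distrib, mul_sum, sum_const, card_univ, nsmul_eq_mul, hcard]
          ring
  have e4 : ∑ z ∈ occ Φ, ∑ p, ∑ X, Iter.W μ (fun _ : Fin m => false) X * ind (Iter.sn Φ z p X) ≤
      (t : ℝ) * N / 2 := by
    calc ∑ z ∈ occ Φ, ∑ p, ∑ X, Iter.W μ (fun _ : Fin m => false) X * ind (Iter.sn Φ z p X)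
        ≤ ∑ z, ∑ p, ∑ X, Iter.W μ (fun _ : Fin m => false) X * ind (Iter.sn Φ z p X) :=
          sum_le_sum_of_subset_of_nonneg (subset_univ _) fun z _ _ =>
            sum_nonneg fun p _ => sum_nonneg fun X _ => mul_nonneg (W_nonneg h0 _ _) (ind_nonneg _)
      _ = ∑ X, Iter.W μ (fun _ : Fin m => false) X * ∑ z, ∑ p, ind (Iter.sn Φ z p X) := by
          simp only [mul_sum]
          rw [sum_congr rfl fun z _ => sum_comm]
          rw [sum_comm]
      _ ≤ ∑ X : Rw m V, Iter.W μ (fun _ : Fin m => false) X * ((t : ℝ) * N / 2) := by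
          refine sum_le_sum fun X _ => mul_le_mul_of_nonneg_left ?_ (W_nonneg h0 _ _)
          have h2 := khr_total (fixMat (fun v => X v.1 v.2) Φ) (t := t)
            (by rw [fixMat_size]; exact hd)
          have h3 : ∑ z, ∑ p, ind ((fixMat (fun v => X v.1 v.2) Φ).eval p &&
              !((fixMat (fun v => X v.1 v.2) Φ).eval (Sel.flip p z))) =
              ∑ z, ∑ p, ind (Iter.sn Φ z p X) := by
            refine sum_congr rfl fun z _ => sum_congr rfl fun p _ => ?_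
            rw [fixMat_eval, fixMat_eval]
            rfl
          rw [h3] at h2
          linarith
      _ = (t : ℝ) * N / 2 := by
          rw [← sum_mul, W_sum h1, one_mul]
  have e5 : ((occ Φ).card : ℝ) ≤ (t : ℝ) ^ 2 := by
    have := (card_occ Φ).trans hd
    exact_mod_cast this
  have e6 : ((occ Φ).card : ℝ) * N * (m * k ^ m * τ) ≤ (t : ℝ) ^ 2 * N * (m * (8 / 7) * τ) := by
    have h2 : (m : ℝ) * k ^ m * τ ≤ m * (8 / 7) * τ :=
      mul_le_mul_of_nonneg_right (mul_le_mul_of_nonneg_left hkm (by linarith)) hτ0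
    exact mul_le_mul (mul_le_mul_of_nonneg_right e5 hN0) h2 (by positivity) (by positivity)
  have e7 : (t : ℝ) ^ 2 * N * (m * (8 / 7) * τ) = 8 / 7 * (t : ℝ) * N / 2 := by
    rw [hτ]
    field_simp
  calc mass μ a Φ ≤ k ^ m * ((t : ℝ) * N / 2) + (t : ℝ) ^ 2 * N * (m * (8 / 7) * τ) :=
        e3.trans (add_le_add (mul_le_mul_of_nonneg_left e4 hkm0) e6)
    _ ≤ 8 / 7 * ((t : ℝ) * N / 2) + 8 / 7 * (t : ℝ) * N / 2 := by
        rw [e7]
        have : 0 ≤ (t : ℝ) * N / 2 := by positivity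
        nlinarith
    _ = 8 / 7 * (t : ℝ) * N := by ring

/-- The mass of a single literal. -/
theorem mass_lit {μ : Bool → (V → Bool) → ℝ} (h0 : ∀ b x, 0 ≤ μ b x)
    (h1 : ∀ b, ∑ x, μ b x = 1) (a : Z → Fin m → Bool) (v : Z ⊕ (Fin m × V)) (b : Bool) :
    mass μ a (.lit v b) ≤ 2 ^ Fintype.card Z := by
  have hcard : (Fintype.card (Z → Bool) : ℝ) = 2 ^ Fintype.card Z := by
    rw [Fintype.card_fun, Fintype.card_bool]
    push_cast
    rfl
  cases v with
  | inl y =>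
    have h2 : mass μ a (.lit (Sum.inl y) b) = ∑ X, Iter.W μ (a y) X *
        ∑ p, ind (Iter.sn (.lit (Sum.inl y) b : Fm (Z ⊕ (Fin m × V))) y p X) := by
      unfold mass
      refine sum_eq_single y (fun z _ hz => ?_) (fun h => absurd (mem_univ y) h)
      refine sum_eq_zero fun X _ => ?_
      rw [sum_eq_zero, mul_zero]
      intro p _
      have : Iter.sn (.lit (Sum.inl y) b : Fm (Z ⊕ (Fin m × V))) z p X = false := by
        simp only [Iter.sn]
        rw [eval_flip]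
        · simp
        · simp [occ, hz]
      simp [this, ind]
    rw [h2]
    calc ∑ X, Iter.W μ (a y) X * ∑ p, ind (Iter.sn (.lit (Sum.inl y) b : Fm (Z ⊕ (Fin m × V))) y p X)
        ≤ ∑ X, Iter.W μ (a y) X * 2 ^ Fintype.card Z := by
          refine sum_le_sum fun X _ => mul_le_mul_of_nonneg_left ?_ (W_nonneg h0 _ _)
          calc ∑ p, ind (Iter.sn (.lit (Sum.inl y) b : Fm (Z ⊕ (Fin m × V))) y p X)
              ≤ ∑ _p : Z → Bool, (1 : ℝ) := sum_le_sum fun p _ => ind_le_one _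
            _ = 2 ^ Fintype.card Z := by
              rw [sum_const, card_univ, nsmul_eq_mul, hcard, mul_one]
      _ = 2 ^ Fintype.card Z := by rw [← sum_mul, W_sum h1, one_mul]
  | inr v =>
    have : mass μ a (.lit (Sum.inr v) b) = 0 := by
      unfold mass
      refine sum_eq_zero fun z _ => sum_eq_zero fun X _ => ?_
      rw [sum_eq_zero, mul_zero]
      intro p _
      simp [Iter.sn, Fm.eval, inp, ind]
    rw [this]
    positivity

/-- The decomposition. -/
theorem decomp {μ : Bool → (V → Bool) → ℝ} (h0 : ∀ b x, 0 ≤ μ b x) (a : Z → Fin m → Bool)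
    {w : Z ⊕ (Fin m × V) → ℝ} (hw : ∀ v, 0 ≤ w v) {B : ℝ} (hB : 0 ≤ B)
    (hL : ∀ Φ : Fm (Z ⊕ (Fin m × V)), cost w Φ < 1 → mass μ a Φ ≤ B)
    (hlit : ∀ v b, mass μ a (.lit v b : Fm (Z ⊕ (Fin m × V))) ≤ B) :
    ∀ (Φ : Fm (Z ⊕ (Fin m × V))) (κ : Fm (Z ⊕ (Fin m × V)) → Fm (Z ⊕ (Fin m × V)))
      (x : ℝ), IsCtx w κ x → 0 ≤ x → x < 1 / 2 →
      mass μ a (κ Φ) ≤ B * (if x + cost w Φ < 1 then 1 else 6 * (x + cost w Φ) - 2) := by
  have light' : ∀ (Φ : Fm (Z ⊕ (Fin m × V)))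
      (κ : Fm (Z ⊕ (Fin m × V)) → Fm (Z ⊕ (Fin m × V))) (x : ℝ), IsCtx w κ x →
      x + cost w Φ < 1 → mass μ a (κ Φ) ≤ B := by
    intro Φ κ x hκ h
    exact hL _ (by rw [hκ.cst]; exact h)
  have hcon : ∀ (κ : Fm (Z ⊕ (Fin m × V)) → Fm (Z ⊕ (Fin m × V))) (x : ℝ),
      IsCtx w κ x → x < 1 / 2 → ∀ d : Bool, mass μ a (κ (.const d)) ≤ B := by
    intro κ x hκ hx d
    refine light' _ _ x hκ ?_
    simp only [cost]
    linarith
  -- the heavy binary case
  have heavy : ∀ (F G Φ : Fm (Z ⊕ (Fin m × V)))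
      (κ : Fm (Z ⊕ (Fin m × V)) → Fm (Z ⊕ (Fin m × V))) (x : ℝ), IsCtx w κ x → 0 ≤ x →
      x < 1 / 2 → cost w Φ = cost w F + cost w G → mass μ a Φ ≤ mass μ a F + mass μ a G →
      ¬ x + cost w Φ < 1 → cost w F ≤ cost w G → ¬ x + cost w F < 1 / 2 →
      mass μ a F ≤ B * (if cost w F < 1 then 1 else 6 * cost w F - 2) →
      mass μ a G ≤ B * (if cost w G < 1 then 1 else 6 * cost w G - 2) →
      mass μ a (κ Φ) ≤ B * (6 * (x + cost w Φ) - 2) := by
    intro F G Φ κ x hκ hx0 hxh hc hΦ hx hFG hhalf hF hG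
    have h1 := mass_ctx h0 a hκ Φ
    have h2 := hcon κ x hκ hxh false
    have h3 := hcon κ x hκ hxh true
    rw [hc] at hx ⊢
    have hF0 := cost_nonneg hw F
    set y := cost w F with hydef
    set z := cost w G with hzdef
    push Not at hx hhalf
    have h4 : mass μ a (κ Φ) ≤ 2 * B + mass μ a F + mass μ a G := by linarith
    by_cases hy : y < 1
    · rw [if_pos hy] at hF
      by_cases hz : z < 1
      · rw [if_pos hz] at hG
        have : B * 4 ≤ B * (6 * (x + (y + z)) - 2) := mul_le_mul_of_nonneg_left (by linarith) hB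
        linarith
      · rw [if_neg hz] at hG
        have : B * (2 + 1 + (6 * z - 2)) ≤ B * (6 * (x + (y + z)) - 2) :=
          mul_le_mul_of_nonneg_left (by linarith) hB
        linarith
    · rw [if_neg hy] at hF
      have hz : ¬ z < 1 := by
        push Not at hy ⊢
        linarith
      rw [if_neg hz] at hG
      have : B * (2 + (6 * y - 2) + (6 * z - 2)) ≤ B * (6 * (x + (y + z)) - 2) :=
        mul_le_mul_of_nonneg_left (by linarith) hB
      linarith
  -- the binary case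
  have bin : ∀ (F G Φ : Fm (Z ⊕ (Fin m × V)))
      (κ : Fm (Z ⊕ (Fin m × V)) → Fm (Z ⊕ (Fin m × V))) (x : ℝ), IsCtx w κ x → 0 ≤ x →
      x < 1 / 2 → cost w Φ = cost w F + cost w G → mass μ a Φ ≤ mass μ a F + mass μ a G →
      (mass μ a F ≤ B * (if cost w F < 1 then 1 else 6 * cost w F - 2)) →
      (mass μ a G ≤ B * (if cost w G < 1 then 1 else 6 * cost w G - 2)) →
      (x + cost w F < 1 / 2 → mass μ a (κ Φ) ≤
        B * (if x + cost w F + cost w G < 1 then 1 else 6 * (x + cost w F + cost w G) - 2)) →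
      (x + cost w G < 1 / 2 → mass μ a (κ Φ) ≤
        B * (if x + cost w G + cost w F < 1 then 1 else 6 * (x + cost w G + cost w F) - 2)) →
      mass μ a (κ Φ) ≤ B * (if x + cost w Φ < 1 then 1 else 6 * (x + cost w Φ) - 2) := by
    intro F G Φ κ x hκ hx0 hxh hc hΦ hF hG ihG ihF
    by_cases hx : x + cost w Φ < 1
    · rw [if_pos hx, mul_one]
      exact light' _ _ x hκ hx
    rcases le_total (cost w F) (cost w G) with hFG | hFG
    · by_cases hh : x + cost w F < 1 / 2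
      · have := ihG hh
        rw [show x + cost w F + cost w G = x + cost w Φ by rw [hc]; ring] at this
        exact this
      · rw [if_neg hx]
        exact heavy F G Φ κ x hκ hx0 hxh hc hΦ hx hFG hh hF hG
    · by_cases hh : x + cost w G < 1 / 2
      · have := ihF hh
        rw [show x + cost w G + cost w F = x + cost w Φ by rw [hc]; ring] at this
        exact this
      · rw [if_neg hx]
        exact heavy G F Φ κ x hκ hx0 hxh (by rw [hc]; ring) (hΦ.trans (le_of_eq (by ring)))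
          hx hFG hh hG hF
  intro Φ
  induction Φ with
  | const d =>
    intro κ x hκ hx0 hxh
    simp only [cost, add_zero]
    rw [if_pos (by linarith), mul_one]
    exact hcon κ x hκ hxh d
  | lit v d =>
    intro κ x hκ hx0 hxh
    by_cases hx : x + cost w (.lit v d : Fm (Z ⊕ (Fin m × V))) < 1
    · rw [if_pos hx, mul_one]
      exact light' _ _ x hκ hx
    · rw [if_neg hx]
      have h1 := mass_ctx h0 a hκ (.lit v d)
      have h2 := hcon κ x hκ hxh false
      have h3 := hcon κ x hκ hxh true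
      have h4 := hlit v d
      push Not at hx
      have h5 : B * 4 ≤ B * (6 * (x + cost w (.lit v d : Fm (Z ⊕ (Fin m × V)))) - 2) :=
        mul_le_mul_of_nonneg_left (by linarith) hB
      linarith
  | and F G ihF ihG =>
    intro κ x hκ hx0 hxh
    have hF := ihF (fun u => u) 0 IsCtx.id le_rfl (by norm_num)
    have hG := ihG (fun u => u) 0 IsCtx.id le_rfl (by norm_num)
    simp only [zero_add] at hF hG
    exact bin F G (.and F G) κ x hκ hx0 hxh rfl (mass_and h0 a F G) hF hG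
      (fun hh => ihG (fun u => κ (.and F u)) _ (hκ.andL F)
        (add_nonneg hx0 (cost_nonneg hw F)) hh)
      (fun hh => ihF (fun u => κ (.and u G)) _ (hκ.andR G)
        (add_nonneg hx0 (cost_nonneg hw G)) hh)
  | or F G ihF ihG =>
    intro κ x hκ hx0 hxh
    have hF := ihF (fun u => u) 0 IsCtx.id le_rfl (by norm_num)
    have hG := ihG (fun u => u) 0 IsCtx.id le_rfl (by norm_num)
    simp only [zero_add] at hF hG
    exact bin F G (.or F G) κ x hκ hx0 hxh rfl (mass_or h0 a F G) hF hG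
      (fun hh => ihG (fun u => κ (.or F u)) _ (hκ.orL F)
        (add_nonneg hx0 (cost_nonneg hw F)) hh)
      (fun hh => ihF (fun u => κ (.or u G)) _ (hκ.orR G)
        (add_nonneg hx0 (cost_nonneg hw G)) hh)

/-- The mass of an arbitrary formula. -/
theorem mass_bound {μ : Bool → (V → Bool) → ℝ} (h0 : ∀ b x, 0 ≤ μ b x)
    (h1 : ∀ b, ∑ x, μ b x = 1) {c : V → ℝ} (hc : ∀ v, 0 ≤ c v) (hm : 1 ≤ m) {t : ℕ} (ht : 1 ≤ t)
    (hE : ∀ h : (V → Bool) → Bool, Cs c 1 h →
      ∑ x, μ true x * ind (h x) ≤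
        (1 + 1 / (8 * (m : ℝ))) * ∑ x, μ false x * ind (h x) + 1 / (2 * (m : ℝ) * t))
    (a : Z → Fin m → Bool) (Φ : Fm (Z ⊕ (Fin m × V))) :
    mass μ a Φ ≤ 8 / 7 * (t : ℝ) * 2 ^ Fintype.card Z *
      (6 * ((dataLeaves Φ : ℝ) / (t : ℝ) ^ 2 + 2 * low c Φ) + 1) := by
  have htR : (1 : ℝ) ≤ t := by exact_mod_cast ht
  have hN : (0 : ℝ) < 2 ^ Fintype.card Z := by positivity
  obtain ⟨B, hBdef⟩ : ∃ B : ℝ, B = 8 / 7 * (t : ℝ) * 2 ^ Fintype.card Z := ⟨_, rfl⟩
  have hB : 0 ≤ B := by rw [hBdef]; positivity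
  have hlit : ∀ v b, mass μ a (.lit v b : Fm (Z ⊕ (Fin m × V))) ≤ B := by
    intro v b
    refine (mass_lit h0 h1 a v b).trans ?_
    rw [hBdef]
    have : (1 : ℝ) ≤ 8 / 7 * t := by linarith
    nlinarith
  obtain ⟨w, hw⟩ : ∃ w : Z ⊕ (Fin m × V) → ℝ,
      w = Sum.elim (fun _ => 1 / ((t : ℝ) ^ 2 + 1)) (fun v => 2 * c v.2) := ⟨_, rfl⟩
  have hw0 : ∀ v, 0 ≤ w v := by
    intro v
    rw [hw]
    cases v with
    | inl z => simp only [Sum.elim_inl]; positivity
    | inr v => simp only [Sum.elim_inr]; have := hc v.2; linarith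
  have hwc : ∀ Φ : Fm (Z ⊕ (Fin m × V)), cost w Φ =
      (dataLeaves Φ : ℝ) / ((t : ℝ) ^ 2 + 1) + 2 * low c Φ := by
    intro Φ
    rw [hw, cost_split]
    ring
  have hL : ∀ Φ : Fm (Z ⊕ (Fin m × V)), cost w Φ < 1 → mass μ a Φ ≤ B := by
    intro Φ hΦ
    rw [hwc] at hΦ
    have h3 := low_nonneg hc Φ
    have h4 : 0 ≤ (dataLeaves Φ : ℝ) / ((t : ℝ) ^ 2 + 1) := by positivity
    have h5 : (dataLeaves Φ : ℝ) / ((t : ℝ) ^ 2 + 1) < 1 := by linarith
    rw [div_lt_one (by positivity)] at h5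
    have h6 : dataLeaves Φ < t ^ 2 + 1 := by exact_mod_cast h5
    rw [hBdef]
    exact light h0 h1 hc hm ht hE a Φ (by linarith) (by omega)
  have h2 := decomp h0 a hw0 hB hL hlit Φ (fun u => u) 0 IsCtx.id le_rfl (by norm_num)
  simp only [zero_add] at h2
  rw [hwc] at h2
  rw [← hBdef]
  refine h2.trans (mul_le_mul_of_nonneg_left ?_ hB)
  have h3 := low_nonneg hc Φ
  have h4 : (dataLeaves Φ : ℝ) / ((t : ℝ) ^ 2 + 1) ≤ (dataLeaves Φ : ℝ) / (t : ℝ) ^ 2 :=
    div_le_div_of_nonneg_left (Nat.cast_nonneg _) (by positivity) (by linarith)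
  have h5 : 0 ≤ (dataLeaves Φ : ℝ) / ((t : ℝ) ^ 2 + 1) := by positivity
  split_ifs <;> linarith

end Pool.Agent.H.MP_027d00_lc.Iter
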