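import Pool.Agent.H.MP_027d00_lc.iter.Defs
import Pool.Agent.H.MP_027d00_lc.ucomp.Comp

/-!
# The number of variables and the natural formula of the iterated selection function
-/

set_option autoImplicit false

namespace Pool.Agent.H.MP_027d00_lc.Iter

open Pool.Agent.H.MP_027d00_lc.UComp

/-! ### the number of variables -/

noncomputable instance fintypeVar (m : ℕ) (V : Type) [Fintype V] : (k : ℕ) → Fintype (Var m V k)
  | 0 => inferInstanceAs (Fintype V)
  | k + 1 =>
    haveI := fintypeVar m V k
    inferInstanceAs (Fintype ((Fin m → Bool) ⊕ (Fin m × Var m V k)))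

instance decEqVar (m : ℕ) (V : Type) [DecidableEq V] : (k : ℕ) → DecidableEq (Var m V k)
  | 0 => inferInstanceAs (DecidableEq V)
  | k + 1 =>
    haveI := decEqVar m V k
    inferInstanceAs (DecidableEq ((Fin m → Bool) ⊕ (Fin m × Var m V k)))

theorem card_zero (m : ℕ) (V : Type) [Fintype V] :
    Fintype.card (Var m V 0) = Fintype.card V := rfl

theorem card_succ (m : ℕ) (V : Type) [Fintype V] (k : ℕ) :
    Fintype.card (Var m V (k + 1)) = 2 ^ m + m * Fintype.card (Var m V k) := by
  have h : Fintype.card (Var m V (k + 1)) =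
      Fintype.card ((Fin m → Bool) ⊕ (Fin m × Var m V k)) := rfl
  rw [h, Fintype.card_sum, Fintype.card_prod, Fintype.card_fun, Fintype.card_fin,
    Fintype.card_bool]

/-- The number of variables is at most `(m + 1)^k M` if `M ≥ 2^m` and `M` is at least the number
of variables of the inner function. -/
theorem card_le (m : ℕ) (V : Type) [Fintype V] (M : ℕ) (h1 : 2 ^ m ≤ M)
    (h2 : Fintype.card V ≤ M) (k : ℕ) : Fintype.card (Var m V k) ≤ (m + 1) ^ k * M := by
  induction k with
  | zero => rw [card_zero]; simpa using h2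
  | succ k ih =>
    rw [card_succ]
    have h3 : 1 ≤ (m + 1) ^ k := Nat.one_le_pow _ _ (Nat.succ_pos m)
    calc 2 ^ m + m * Fintype.card (Var m V k)
        ≤ (m + 1) ^ k * M + m * ((m + 1) ^ k * M) :=
          Nat.add_le_add (h1.trans (by nlinarith)) (Nat.mul_le_mul_left _ ih)
      _ = (m + 1) ^ (k + 1) * M := by ring

/-- The number of variables is at least `2^m` as soon as there is one level of selection. -/
theorem le_card (m : ℕ) (V : Type) [Fintype V] (k : ℕ) :
    2 ^ m ≤ Fintype.card (Var m V (k + 1)) := by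
  rw [card_succ]; exact Nat.le_add_right _ _

/-! ### counting leaves -/

/-- Renaming of the variables. -/
def rename {V W : Type} (f : V → W) : Fm V → Fm W
  | .const b => .const b
  | .lit v b => .lit (f v) b
  | .and G H => .and (rename f G) (rename f H)
  | .or G H => .or (rename f G) (rename f H)

theorem rename_eval {V W : Type} (f : V → W) (Φ : Fm V) (x : W → Bool) :
    (rename f Φ).eval x = Φ.eval (fun v => x (f v)) := by
  induction Φ with
  | const b => rfl
  | lit v b => rfl
  | and G H ihG ihH => simp only [rename, Fm.eval, ihG, ihH]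
  | or G H ihG ihH => simp only [rename, Fm.eval, ihG, ihH]

theorem rename_cnt {V W : Type} (f : V → W) (p : W → Bool) (Φ : Fm V) :
    cnt p (rename f Φ) = cnt (fun v => p (f v)) Φ := by
  induction Φ with
  | const b => rfl
  | lit v b => rfl
  | and G H ihG ihH => simp only [rename, cnt, ihG, ihH]
  | or G H ihG ihH => simp only [rename, cnt, ihG, ihH]

theorem neg_cnt {V : Type} (p : V → Bool) (Φ : Fm V) : cnt p (Comp.neg Φ) = cnt p Φ := by
  induction Φ with
  | const b => rfl
  | lit v b => rfl
  | and G H ihG ihH => simp only [Comp.neg, cnt, ihG, ihH]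
  | or G H ihG ihH => simp only [Comp.neg, cnt, ihG, ihH]

theorem cnt_true {V : Type} (Φ : Fm V) : cnt (fun _ => true) Φ = Φ.size := by
  induction Φ with
  | const b => rfl
  | lit v b => rfl
  | and G H ihG ihH => simp only [cnt, Fm.size, ihG, ihH]
  | or G H ihG ihH => simp only [cnt, Fm.size, ihG, ihH]

theorem cnt_false {V : Type} (Φ : Fm V) : cnt (fun _ => false) Φ = 0 := by
  induction Φ with
  | const b => rfl
  | lit v b => rfl
  | and G H ihG ihH => simp only [cnt, ihG, ihH]
  | or G H ihG ihH => simp only [cnt, ihG, ihH]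

theorem cnt_congr {V : Type} {p q : V → Bool} (h : ∀ v, p v = q v) (Φ : Fm V) :
    cnt p Φ = cnt q Φ := by
  have : p = q := funext h
  rw [this]

/-! ### the multiplexer -/

/-- The decision tree that reads the address bits `r - 1, ..., 0`. -/
def mux {m : ℕ} {W : Type} (d : (Fin m → Bool) → W) (A : Fin m → Fm W) :
    ℕ → (Fin m → Bool) → Fm W
  | 0, a => .lit (d a) true
  | r + 1, a =>
    if h : r < m then
      .or (.and (A ⟨r, h⟩) (mux d A r (Function.update a ⟨r, h⟩ true)))
        (.and (Comp.neg (A ⟨r, h⟩)) (mux d A r (Function.update a ⟨r, h⟩ false)))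
    else mux d A r a

theorem mux_eval {m : ℕ} {W : Type} (d : (Fin m → Bool) → W) (A : Fin m → Fm W) (x : W → Bool)
    (r : ℕ) (a : Fin m → Bool) :
    (mux d A r a).eval x = x (d (fun i => if i.val < r then (A i).eval x else a i)) := by
  induction r generalizing a with
  | zero => simp [mux, Fm.eval]
  | succ r ih =>
    by_cases h : r < m
    · have e : ∀ b : Bool, (A ⟨r, h⟩).eval x = b →
          (fun i : Fin m => if i.val < r then (A i).eval x else Function.update a ⟨r, h⟩ b i) =
          fun i : Fin m => if i.val < r + 1 then (A i).eval x else a i := by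
        intro b hb
        funext i
        by_cases hi : i = ⟨r, h⟩
        · subst hi
          simp [hb]
        · have hi' : i.val ≠ r := fun hc => hi (Fin.ext hc)
          rw [Function.update_of_ne hi]
          by_cases hlt : i.val < r
          · rw [if_pos hlt, if_pos (Nat.lt_succ_of_lt hlt)]
          · rw [if_neg hlt, if_neg (by omega)]
      rw [mux, dif_pos h]
      cases hb : (A ⟨r, h⟩).eval x with
      | true =>
        simp only [Fm.eval, Comp.neg_eval, hb, ih, Bool.true_and, Bool.not_true, Bool.false_and,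
          Bool.or_false]
        rw [e true hb]
      | false =>
        simp only [Fm.eval, Comp.neg_eval, hb, ih, Bool.true_and, Bool.not_false, Bool.false_and,
          Bool.false_or]
        rw [e false hb]
    · rw [mux, dif_neg h, ih]
      congr 2
      funext i
      have := i.isLt
      rw [if_pos (by omega), if_pos (by omega)]

theorem mux_cnt {m : ℕ} {W : Type} (d : (Fin m → Bool) → W) (A : Fin m → Fm W) (p : W → Bool)
    (e c : ℕ) (he : ∀ a, (if p (d a) then 1 else 0) = e) (hc : ∀ i, cnt p (A i) = c)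
    (r : ℕ) (hr : r ≤ m) (a : Fin m → Bool) :
    cnt p (mux d A r a) = 2 ^ r * e + 2 * (2 ^ r - 1) * c := by
  induction r generalizing a with
  | zero => simpa [mux, cnt] using he a
  | succ r ih =>
    have h : r < m := hr
    rw [mux, dif_pos h]
    simp only [cnt, neg_cnt, hc, ih h.le]
    have h1 : 1 ≤ 2 ^ r := Nat.one_le_two_pow
    obtain ⟨t, ht⟩ := Nat.exists_eq_add_of_le h1
    have e1 : 2 ^ r - 1 = t := by omega
    have e2 : 2 ^ (r + 1) - 1 = 2 * t + 1 := by rw [pow_succ]; omega
    rw [e2, e1, pow_succ, ht]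
    ring

/-! ### the natural formula -/

/-- The data bit of level `k + 1` with address `a`. -/
def dat {m : ℕ} {V : Type} {k : ℕ} (a : Fin m → Bool) : Var m V (k + 1) := Sum.inl a

/-- The variable `v` of the `i`-th copy of the function of level `k`. -/
def sub {m : ℕ} {V : Type} {k : ℕ} (i : Fin m) (v : Var m V k) : Var m V (k + 1) :=
  Sum.inr (i, v)

theorem F_succ (m : ℕ) {V : Type} (g : (V → Bool) → Bool) (k : ℕ) (x : Var m V (k + 1) → Bool) :
    F m g (k + 1) x = x (dat (fun i => F m g k (fun v => x (sub i v)))) := rfl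

theorem level_dat {m : ℕ} {V : Type} {k : ℕ} (a : Fin m → Bool) :
    level m V (k + 1) (dat a) = k + 1 := rfl

theorem level_sub {m : ℕ} {V : Type} {k : ℕ} (i : Fin m) (v : Var m V k) :
    level m V (k + 1) (sub i v) = level m V k v := rfl

theorem level_le (m : ℕ) (V : Type) (k : ℕ) (v : Var m V k) : level m V k v ≤ k := by
  induction k with
  | zero => exact le_rfl
  | succ k ih =>
    rcases v with a | ⟨i, v⟩
    · exact le_rfl
    · exact (ih v).trans (Nat.le_succ k)

/-- The natural formula of the iterated selection function. -/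
def nat (m : ℕ) {V : Type} (Ψ : Fm V) : (k : ℕ) → Fm (Var m V k)
  | 0 => Ψ
  | k + 1 => mux dat (fun i => rename (sub i) (nat m Ψ k)) m (fun _ => false)

theorem nat_succ (m : ℕ) {V : Type} (Ψ : Fm V) (k : ℕ) :
    nat m Ψ (k + 1) = mux dat (fun i => rename (sub i) (nat m Ψ k)) m (fun _ => false) := rfl

theorem nat_eval (m : ℕ) {V : Type} (g : (V → Bool) → Bool) (Ψ : Fm V)
    (hΨ : ∀ x, Ψ.eval x = g x) (k : ℕ) (x : Var m V k → Bool) :
    (nat m Ψ k).eval x = F m g k x := by
  induction k with
  | zero => exact hΨ x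
  | succ k ih =>
    rw [nat_succ, mux_eval, F_succ]
    congr 2
    funext i
    rw [if_pos i.isLt, rename_eval, ih]

theorem leaves_succ {m : ℕ} {V : Type} {k : ℕ} (j : ℕ) (hj : j ≤ k) (Φ : Fm (Var m V k)) :
    leaves j (mux dat (fun i => rename (sub i) Φ) m (fun _ => false) : Fm (Var m V (k + 1))) =
      2 * (2 ^ m - 1) * leaves j Φ := by
  unfold leaves
  rw [mux_cnt _ _ _ 0 (cnt (fun v => level m V k v == j) Φ) _ _ m le_rfl, mul_zero, zero_add]
  · intro a
    have : ((level m V (k + 1) (dat a)) == j) = false := by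
      rw [level_dat]
      simp only [beq_eq_false_iff_ne]; omega
    rw [this]; rfl
  · intro i
    rw [rename_cnt]
    rfl

theorem nat_leaves_zero (m : ℕ) {V : Type} (Ψ : Fm V) (k : ℕ) :
    leaves 0 (nat m Ψ k) = (2 * (2 ^ m - 1)) ^ k * Ψ.size := by
  induction k with
  | zero =>
    rw [pow_zero, one_mul, ← cnt_true]
    exact cnt_congr (fun v => rfl) _
  | succ k ih =>
    rw [nat_succ, leaves_succ 0 (Nat.zero_le k), ih]
    ring

theorem nat_leaves_top (m : ℕ) {V : Type} (Ψ : Fm V) (k : ℕ) :
    leaves (k + 1) (nat m Ψ (k + 1)) = 2 ^ m := by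
  rw [nat_succ]
  unfold leaves
  rw [mux_cnt _ _ _ 1 0 _ _ m le_rfl, mul_one, mul_zero, add_zero]
  · intro a
    rw [level_dat]
    simp
  · intro i
    rw [rename_cnt, ← cnt_false (nat m Ψ k)]
    refine cnt_congr (fun v => ?_) _
    have := level_le m V k v
    rw [level_sub]
    simp only [beq_eq_false_iff_ne]; omega

theorem nat_leaves (m : ℕ) {V : Type} (Ψ : Fm V) (k j : ℕ) (h1 : 1 ≤ j) (h2 : j ≤ k) :
    leaves j (nat m Ψ k) = (2 * (2 ^ m - 1)) ^ (k - j) * 2 ^ m := by
  induction k with
  | zero => omega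
  | succ k ih =>
    rcases Nat.lt_or_ge k j with h | h
    · have : j = k + 1 := by omega
      subst this
      rw [nat_leaves_top, Nat.sub_self, pow_zero, one_mul]
    · rw [nat_succ, leaves_succ j h, ih h, Nat.succ_sub h, pow_succ]
      ring

/-- **The natural formula.** The iterated selection function has a formula with
`(2 (R - 1))^k` times the size of a formula of the inner function many leaves of level `0` and
`R (2 (R - 1))^(k - j)` leaves of level `j`, where `R = 2^m`. -/
theorem exists_natural (m : ℕ) {V : Type} (g : (V → Bool) → Bool) (Ψ : Fm V)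
    (hΨ : ∀ x, Ψ.eval x = g x) (k : ℕ) :
    ∃ Φ : Fm (Var m V k), (∀ x, Φ.eval x = F m g k x) ∧
      leaves 0 Φ = (2 * (2 ^ m - 1)) ^ k * Ψ.size ∧
      ∀ j, 1 ≤ j → j ≤ k → leaves j Φ = (2 * (2 ^ m - 1)) ^ (k - j) * 2 ^ m :=
  ⟨nat m Ψ k, nat_eval m g Ψ hΨ k, nat_leaves_zero m Ψ k, fun j h1 h2 => nat_leaves m Ψ k j h1 h2⟩

/-- The size of a formula is the sum of its leaf counts over the levels. -/
theorem size_eq_sum {m : ℕ} {V : Type} {k : ℕ} (Φ : Fm (Var m V k)) :
    Φ.size = ∑ j ∈ Finset.range (k + 1), leaves j Φ := by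
  unfold leaves
  induction Φ with
  | const b => simp [cnt, Fm.size]
  | lit v b =>
    have hv := level_le m V k v
    simp only [cnt, Fm.size, beq_iff_eq]
    rw [Finset.sum_ite_eq, if_pos (Finset.mem_range.2 (by omega))]
  | and G H ihG ihH => simp only [cnt, Fm.size, ihG, ihH, Finset.sum_add_distrib]
  | or G H ihG ihH => simp only [cnt, Fm.size, ihG, ihH, Finset.sum_add_distrib]

end Pool.Agent.H.MP_027d00_lc.Iter
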