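import Mathlib

/-!
# The induction on the levels (abstract form)

`B k τ w` is to be read: the function `F_k` has distributions on its ones and its zeros that are
one-sidedly blind, with additive error `τ`, to all formulas of `w`-weighted size at most one
(`w j` is the weight of a leaf of level `j`).
-/

set_option autoImplicit false

open Finset

namespace Pool.Agent.H.MP_027d00_lc.Iter

/-- The exponent `(3^k - 1)/2`. -/
def ee : ℕ → ℕ
  | 0 => 0
  | k + 1 => 3 ^ k + ee k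

theorem ee_spec (k : ℕ) : 2 * ee k + 1 = 3 ^ k := by
  induction k with
  | zero => simp [ee]
  | succ k ih => simp only [ee, pow_succ]; omega

theorem ee_eq (k : ℕ) : ee k = (3 ^ k - 1) / 2 := by
  have := ee_spec k
  omega

/-- `∑_{j<k} ee j`. -/
def ff : ℕ → ℕ
  | 0 => 0
  | k + 1 => ee k + ff k

theorem two_ff_le (k : ℕ) : 2 * ff k ≤ ee k := by
  induction k with
  | zero => simp [ee, ff]
  | succ k ih =>
    have h := ee_spec k
    simp only [ee, ff]; omega

/-- The bound carried through the induction. -/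
noncomputable def Om (A c R : ℝ) (s : ℕ → ℝ) : ℕ → ℝ → ℝ → ℝ
  | 0, U, _ => A * U
  | k + 1, U, η => Om A c R s k (c * U ^ 3 * s (k + 1) ^ 2 / (η ^ 2 * R ^ 3)) (η / 2)

theorem Om_eq (A c R : ℝ) (s : ℕ → ℝ) (k : ℕ) : ∀ U η : ℝ,
    Om A c R s k U η = A * U ^ (3 ^ k) * (c / (η ^ 2 * R ^ 3)) ^ (ee k) * 4 ^ (ff k) *
      ∏ j ∈ range k, s (j + 1) ^ (2 * 3 ^ j) := by
  induction k with
  | zero => intro U η; simp [Om, ee, ff]
  | succ k ih =>
    intro U η
    simp only [Om]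
    rw [ih, prod_range_succ]
    simp only [ee, ff, pow_add, pow_succ (3 : ℕ) k]
    have h1 : c * U ^ 3 * s (k + 1) ^ 2 / (η ^ 2 * R ^ 3) =
        U ^ 3 * (c / (η ^ 2 * R ^ 3)) * s (k + 1) ^ 2 := by ring
    have h2 : c / ((η / 2) ^ 2 * R ^ 3) = (c / (η ^ 2 * R ^ 3)) * 4 := by
      rw [div_pow]
      rcases eq_or_ne (η ^ 2 * R ^ 3) 0 with h | h
      · have : η ^ 2 / 2 ^ 2 * R ^ 3 = 0 := by
          rw [div_mul_eq_mul_div, h]; simp
        rw [this, h]; simp
      · field_simp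
        ring
    rw [h1, h2, mul_pow, mul_pow, mul_pow, ← pow_mul, ← pow_mul, mul_comm 3 (3 ^ k)]
    ring

theorem Om_mono {A c R : ℝ} (hA : 0 ≤ A) (hc : 0 ≤ c) (hR : 0 ≤ R) {s : ℕ → ℝ}
    (hs : ∀ j, 0 ≤ s j) (k : ℕ) {U V η : ℝ} (hU : 0 ≤ U) (hUV : U ≤ V) :
    Om A c R s k U η ≤ Om A c R s k V η := by
  rw [Om_eq, Om_eq]
  have hp : 0 ≤ ∏ j ∈ range k, s (j + 1) ^ (2 * 3 ^ j) :=
    prod_nonneg fun j _ => pow_nonneg (hs _) _
  gcongr

theorem Om_nonneg {A c R : ℝ} (hA : 0 ≤ A) (hc : 0 ≤ c) (hR : 0 ≤ R) {s : ℕ → ℝ}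
    (hs : ∀ j, 0 ≤ s j) (k : ℕ) {U η : ℝ} (hU : 0 ≤ U) : 0 ≤ Om A c R s k U η := by
  rw [Om_eq]
  have hp : 0 ≤ ∏ j ∈ range k, s (j + 1) ^ (2 * 3 ^ j) :=
    prod_nonneg fun j _ => pow_nonneg (hs _) _
  positivity

/-- The constant of the recursion. -/
abbrev CC : ℝ := 440 * 56 ^ 2

theorem tele_ind {B : ℕ → ℝ → (ℕ → ℝ) → Prop} {A R : ℝ} {m : ℕ} (hm : 1 ≤ m) (hA : 0 ≤ A)
    (hR : 0 < R)
    (hStep : ∀ (k t : ℕ) (τ : ℝ) (w : ℕ → ℝ), 0 < τ → 1 ≤ t → 5 * (t : ℝ) ≤ R * τ →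
      (∀ j, 0 ≤ w j) → B k (1 / (2 * m * t)) w →
      B (k + 1) τ (fun j => if j = k + 1 then 28 / (R * t * τ) else 55 * t / (R * τ) * w j))
    (hDrop : ∀ (k : ℕ) (τ : ℝ) (w : ℕ → ℝ), 0 < τ → (∀ j, 0 ≤ w j) → B k τ w →
      B (k + 1) τ (fun j => if j = k + 1 then 0 else w j))
    (hData : ∀ (k : ℕ) (τ : ℝ), 0 < τ →
      B (k + 1) τ (fun j => if j = k + 1 then 1 / (R * τ) else 0))
    (hBase : ∀ τ : ℝ, 0 < τ → B 0 τ (fun _ => A / τ))
    {s : ℕ → ℝ} (hs : ∀ j, 0 ≤ s j) (k : ℕ) :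
    ∀ Γ τ η : ℝ, 0 < Γ → 0 < τ → 0 < η →
      (∀ t : ℕ, 1 ≤ t → 10 * (m : ℝ) * t ^ 2 ≤ R → 5 * (t : ℝ) ≤ R * τ) →
      ∃ w : ℕ → ℝ, (∀ j, 0 ≤ w j) ∧ B k τ w ∧
        Γ * ∑ j ∈ range k, w (j + 1) * s (j + 1) ≤ η ∧
        Γ * w 0 ≤ Om A (CC * m) R s k (Γ / τ) η := by
  have hm' : (1 : ℝ) ≤ m := by exact_mod_cast hm
  have hm0 : (0 : ℝ) < m := by linarith
  have hc : 0 ≤ CC * (m : ℝ) := by positivity
  induction k with
  | zero =>
    intro Γ τ η hΓ hτ hη _
    refine ⟨fun _ => A / τ, fun _ => by positivity, hBase τ hτ, by simp; exact hη.le, ?_⟩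
    simp only [Om]
    apply le_of_eq; ring
  | succ k ih =>
    intro Γ τ η hΓ hτ hη hinv
    set σ : ℝ := s (k + 1) with hσ
    have hσ0 : 0 ≤ σ := hs _
    set U : ℝ := Γ / τ with hU
    have hU0 : 0 < U := by positivity
    have hsplit : ∀ (w : ℕ → ℝ) (a b : ℝ),
        ∑ j ∈ range (k + 1), (if j + 1 = k + 1 then a else b * w (j + 1)) * s (j + 1) =
          b * (∑ j ∈ range k, w (j + 1) * s (j + 1)) + a * σ := by
      intro w a b
      rw [sum_range_succ, if_pos rfl, mul_sum]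
      congr 1
      apply sum_congr rfl
      intro j hj
      have : j < k := mem_range.mp hj
      rw [if_neg (by omega)]
      ring
    by_cases h1 : U * σ ≤ η * R
    · refine ⟨fun j => if j = k + 1 then 1 / (R * τ) else 0, ?_, hData k τ hτ, ?_, ?_⟩
      · intro j; dsimp only; split_ifs <;> positivity
      · have h := hsplit (fun _ => 0) (1 / (R * τ)) 0
        simp only [zero_mul, zero_add, mul_zero] at h
        rw [h]
        have : Γ * (1 / (R * τ) * σ) = U * σ / R := by rw [hU]; field_simp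
        rw [this, div_le_iff₀ hR]
        exact h1
      · have : (0 : ℕ) ≠ k + 1 := by omega
        simp only [if_neg this, mul_zero]
        exact Om_nonneg hA hc hR.le hs _ hU0.le
    · push Not at h1
      set x : ℝ := 56 * (U * σ) / (η * R) with hx
      have hηR : 0 < η * R := by positivity
      have hx56 : 56 < x := by
        rw [hx, lt_div_iff₀ hηR]; nlinarith
      have hx0 : 0 < x := by linarith
      set t : ℕ := ⌈x⌉₊ with ht
      have htx : x ≤ t := Nat.le_ceil x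
      have htx2 : (t : ℝ) ≤ 2 * x := by
        have := (Nat.ceil_lt_add_one hx0.le).le
        rw [← ht] at this
        linarith
      have ht1 : 1 ≤ t := by
        have : (1 : ℝ) ≤ t := by linarith
        exact_mod_cast this
      have ht0 : (0 : ℝ) < t := by linarith
      -- the virtual value
      have hvirt : CC * m * U ^ 3 * σ ^ 2 / (η ^ 2 * R ^ 3) = U * (440 * m * x ^ 2 / R) := by
        rw [hx]; field_simp
      by_cases h2 : 10 * (m : ℝ) * t ^ 2 ≤ R
      · -- step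
        have h5 : 5 * (t : ℝ) ≤ R * τ := hinv t ht1 h2
        have hΓ' : 0 < Γ * (55 * t / (R * τ)) := by positivity
        have hτ' : (0 : ℝ) < 1 / (2 * m * t) := by positivity
        obtain ⟨w, hw0, hwB, hws, hwz⟩ := ih (Γ * (55 * t / (R * τ))) (1 / (2 * m * t)) (η / 2)
          hΓ' hτ' (by positivity) (by
            intro t' ht'1 ht'2
            have ht'0 : (0 : ℝ) < t' := by exact_mod_cast ht'1
            rw [mul_one_div, le_div_iff₀ (by positivity)]
            have key : (t : ℝ) * t' ≤ t ^ 2 ∨ (t : ℝ) * t' ≤ (t' : ℝ) ^ 2 := by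
              rcases le_total (t : ℝ) t' with h | h
              · right; nlinarith
              · left; nlinarith
            rcases key with h | h
            · calc 5 * (t' : ℝ) * (2 * m * t) = 10 * m * (t * t') := by ring
                _ ≤ 10 * m * t ^ 2 := by gcongr
                _ ≤ R := h2
            · calc 5 * (t' : ℝ) * (2 * m * t) = 10 * m * (t * t') := by ring
                _ ≤ 10 * m * (t' : ℝ) ^ 2 := by gcongr
                _ ≤ R := ht'2)
        refine ⟨fun j => if j = k + 1 then 28 / (R * t * τ) else 55 * t / (R * τ) * w j, ?_,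
          hStep k t τ w hτ ht1 h5 hw0 hwB, ?_, ?_⟩
        · intro j
          have := hw0 j
          dsimp only; split_ifs <;> positivity
        · rw [hsplit w, mul_add, ← mul_assoc]
          have e1 : Γ * (28 / (R * t * τ) * σ) = η / 2 * (x / t) := by
            rw [hx, hU]; field_simp; ring
          have e2 : x / t ≤ 1 := by rw [div_le_one ht0]; exact htx
          rw [e1]
          nlinarith
        · have h0 : (0 : ℕ) ≠ k + 1 := by omega
          simp only [if_neg h0, Om]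
          rw [← mul_assoc]
          refine hwz.trans ?_
          rw [← hσ, hvirt]
          apply Om_mono hA hc hR.le hs
          · positivity
          · have e3 : Γ * (55 * t / (R * τ)) / (1 / (2 * m * t)) = U * (110 * m * t ^ 2 / R) := by
              rw [hU]; field_simp; ring
            rw [e3]
            have e4 : (t : ℝ) ^ 2 ≤ (2 * x) ^ 2 := by gcongr
            have e5 : 110 * (m : ℝ) * t ^ 2 ≤ 440 * m * x ^ 2 := by nlinarith
            gcongr
      · -- drop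
        push Not at h2
        obtain ⟨w, hw0, hwB, hws, hwz⟩ := ih Γ τ (η / 2) hΓ hτ (by positivity) hinv
        refine ⟨fun j => if j = k + 1 then 0 else w j, ?_, hDrop k τ w hτ hw0 hwB, ?_, ?_⟩
        · intro j
          have := hw0 j
          dsimp only; split_ifs
          · exact le_refl _
          · exact this
        · have h := hsplit w 0 1
          simp only [one_mul, zero_mul, add_zero] at h
          rw [h]
          linarith
        · have h0 : (0 : ℕ) ≠ k + 1 := by omega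
          simp only [if_neg h0, Om]
          refine hwz.trans ?_
          rw [← hσ, hvirt]
          apply Om_mono hA hc hR.le hs _ hU0.le
          have e4 : (t : ℝ) ^ 2 ≤ (2 * x) ^ 2 := by gcongr
          have e6 : 1 ≤ 440 * m * x ^ 2 / R := by
            rw [one_le_div hR]
            nlinarith
          nlinarith

/-- The final inequality. -/
theorem tele {B : ℕ → ℝ → (ℕ → ℝ) → Prop} {A R : ℝ} {m : ℕ} (hm : 1 ≤ m) (hA : 0 ≤ A)
    (hR : 0 < R)
    (hStep : ∀ (k t : ℕ) (τ : ℝ) (w : ℕ → ℝ), 0 < τ → 1 ≤ t → 5 * (t : ℝ) ≤ R * τ →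
      (∀ j, 0 ≤ w j) → B k (1 / (2 * m * t)) w →
      B (k + 1) τ (fun j => if j = k + 1 then 28 / (R * t * τ) else 55 * t / (R * τ) * w j))
    (hDrop : ∀ (k : ℕ) (τ : ℝ) (w : ℕ → ℝ), 0 < τ → (∀ j, 0 ≤ w j) → B k τ w →
      B (k + 1) τ (fun j => if j = k + 1 then 0 else w j))
    (hData : ∀ (k : ℕ) (τ : ℝ), 0 < τ →
      B (k + 1) τ (fun j => if j = k + 1 then 1 / (R * τ) else 0))
    (hBase : ∀ τ : ℝ, 0 < τ → B 0 τ (fun _ => A / τ))
    {s : ℕ → ℝ} (hs : ∀ j, 0 ≤ s j) (k : ℕ)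
    (hExact : ∀ w : ℕ → ℝ, (∀ j, 0 ≤ w j) → B k (1 / 2) w →
      1 < ∑ j ∈ range (k + 1), w j * s j) :
    R ^ (3 * ee k) ≤ 4 * A * (32 * CC * m) ^ (ee k) * s 0 *
      ∏ j ∈ range k, s (j + 1) ^ (2 * 3 ^ j) := by
  have hm' : (1 : ℝ) ≤ m := by exact_mod_cast hm
  have hm0 : (0 : ℝ) < m := by linarith
  have hc : 0 ≤ CC * (m : ℝ) := by positivity
  obtain ⟨w, hw0, hwB, hws, hwz⟩ := tele_ind hm hA hR hStep hDrop hData hBase hs k 1 (1 / 2)
    (1 / 2) one_pos (by norm_num) (by norm_num) (by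
      intro t ht1 ht2
      have h1 : (1 : ℝ) ≤ t := by exact_mod_cast ht1
      nlinarith [mul_le_mul hm' (le_refl ((t : ℝ) ^ 2)) (by positivity) hm0.le])
  rw [one_mul] at hws hwz
  have h := hExact w hw0 hwB
  rw [sum_range_succ'] at h
  have h3 : 1 / 2 < w 0 * s 0 := by linarith
  rw [Om_eq] at hwz
  set P := ∏ j ∈ range k, s (j + 1) ^ (2 * 3 ^ j) with hP
  have hP0 : 0 ≤ P := prod_nonneg fun j _ => pow_nonneg (hs _) _
  have h4 : A * (1 / (1 / 2 : ℝ)) ^ (3 ^ k) * (CC * m / ((1 / 2) ^ 2 * R ^ 3)) ^ (ee k) *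
      4 ^ (ff k) * P ≤ 2 * A * (32 * CC * m) ^ (ee k) * P / R ^ (3 * ee k) := by
    have e1 : (1 / (1 / 2 : ℝ)) ^ (3 ^ k) = 2 * 4 ^ (ee k) := by
      rw [← ee_spec k, pow_succ, pow_mul]; norm_num; ring
    have e2 : (CC * m / ((1 / 2) ^ 2 * R ^ 3)) ^ (ee k) =
        (4 * CC * m) ^ (ee k) / R ^ (3 * ee k) := by
      rw [pow_mul, ← div_pow]
      congr 1
      field_simp
      ring
    have e3 : (4 : ℝ) ^ (ff k) ≤ 2 ^ (ee k) := by
      calc (4 : ℝ) ^ (ff k) = 2 ^ (2 * ff k) := by rw [pow_mul]; norm_num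
        _ ≤ 2 ^ (ee k) := pow_le_pow_right₀ (by norm_num) (two_ff_le k)
    have e4 : (32 * CC * (m : ℝ)) ^ (ee k) = 4 ^ (ee k) * (4 * CC * m) ^ (ee k) * 2 ^ (ee k) := by
      rw [← mul_pow, ← mul_pow]; congr 1; ring
    rw [e1, e2, e4]
    calc A * (2 * 4 ^ (ee k)) * ((4 * CC * m) ^ (ee k) / R ^ (3 * ee k)) * 4 ^ (ff k) * P
        ≤ A * (2 * 4 ^ (ee k)) * ((4 * CC * m) ^ (ee k) / R ^ (3 * ee k)) * 2 ^ (ee k) * P := by
          gcongr
      _ = _ := by ring
  have h5 : w 0 ≤ 2 * A * (32 * CC * m) ^ (ee k) * P / R ^ (3 * ee k) := hwz.trans h4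
  have hRp : 0 < R ^ (3 * ee k) := by positivity
  have h6 : 1 / 2 < 2 * A * (32 * CC * m) ^ (ee k) * P / R ^ (3 * ee k) * s 0 :=
    h3.trans_le (mul_le_mul_of_nonneg_right h5 (hs 0))
  have h7 : 2 * A * (32 * CC * m) ^ (ee k) * P / R ^ (3 * ee k) * s 0 =
      (2 * A * (32 * CC * m) ^ (ee k) * P * s 0) / R ^ (3 * ee k) := by ring
  rw [h7, lt_div_iff₀ hRp] at h6
  generalize (32 * CC * (m : ℝ)) ^ (ee k) = Q at h6 ⊢
  generalize R ^ (3 * ee k) = Z at h6 ⊢
  have h8 : 2 * A * Q * P * s 0 * 2 = 4 * A * Q * s 0 * P := by ring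
  linarith

end Pool.Agent.H.MP_027d00_lc.Iter
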