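import Pool.Agent.H.MP_027d00_lc.iter.Step
import Pool.Agent.H.MP_027d00_lc.iter.Nat
import Pool.Agent.H.MP_027d00_lc.iter.Tele

/-!
# The lower bound for iterated selection
-/

set_option autoImplicit false

open Finset

namespace Pool.Agent.H.MP_027d00_lc.Iter

open Pool.Agent.H.MP_027d00_lc.UComp

theorem F_nonconst {V : Type} (m : ℕ) {g : (V → Bool) → Bool} (hg : ∃ x y, g x ≠ g y) (k : ℕ) :
    ∃ x y, F m g k x ≠ F m g k y := by
  cases k with
  | zero => exact hg
  | succ k =>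
    exact ⟨(fun _ => true : Var m V (k + 1) → Bool), (fun _ => false : Var m V (k + 1) → Bool),
      by simp [F]⟩

theorem cost_level {m k : ℕ} {V : Type} (w : ℕ → ℝ) (Φ : Fm (Var m V k)) :
    cost (fun v => w (level m V k v)) Φ = ∑ j ∈ range (k + 1), w j * leaves j Φ := by
  induction Φ with
  | const b => simp [cost, leaves, cnt]
  | lit v b =>
    simp only [cost, leaves, cnt]
    have hle : level m V k v ≤ k := level_le m V k v
    rw [sum_eq_single (level m V k v)]
    · simp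
    · intro j _ hj
      have : (level m V k v == j) = false := by simpa using Ne.symm hj
      simp [this]
    · intro h
      exact absurd (mem_range.2 (by omega)) h
  | and G H ihG ihH =>
    simp only [cost, ihG, ihH, ← sum_add_distrib]
    refine sum_congr rfl fun j _ => ?_
    simp only [leaves, cnt]
    push_cast
    ring
  | or G H ihG ihH =>
    simp only [cost, ihG, ihH, ← sum_add_distrib]
    refine sum_congr rfl fun j _ => ?_
    simp only [leaves, cnt]
    push_cast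
    ring

section

variable {V : Type} [Fintype V] [DecidableEq V]

/-- Blindness of the iterated selection function for weights that depend on the level. -/
def B (m : ℕ) (g : (V → Bool) → Bool) (k : ℕ) (τ : ℝ) (w : ℕ → ℝ) : Prop :=
  Blind m (F m g k) (fun v => w (level m V k v)) τ

omit [Fintype V] [DecidableEq V] in
theorem weights {m k : ℕ} (α : ℝ) (w' : ℕ → ℝ) :
    (fun v : Var m V (k + 1) => (fun j => if j = k + 1 then α else w' j)
      (level m V (k + 1) v)) =
    (Sum.elim (fun _ => α) (fun v => w' (level m V k v.2)) :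
      (Fin m → Bool) ⊕ (Fin m × Var m V k) → ℝ) := by
  funext v
  rcases v with z | ⟨i, v⟩
  · simp [level]
  · have hle : level m V k v ≤ k := level_le m V k v
    have h2 : level m V (k + 1) (Sum.inr (i, v)) = level m V k v := rfl
    simp only [h2, Sum.elim_inr]
    rw [if_neg (by omega)]

theorem hStep {m : ℕ} (hm : 1 ≤ m) (g : (V → Bool) → Bool) (k t : ℕ) (τ : ℝ) (w : ℕ → ℝ)
    (hτ : 0 < τ) (ht : 1 ≤ t) (hR : 5 * (t : ℝ) ≤ 2 ^ m * τ) (hw : ∀ j, 0 ≤ w j)
    (H : B m g k (1 / (2 * m * t)) w) :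
    B m g (k + 1) τ (fun j => if j = k + 1 then 28 / (2 ^ m * t * τ) else
      55 * t / (2 ^ m * τ) * w j) := by
  have h1 := step (m := m) (fun v => hw _) hm ht hτ hR H
  exact (congrArg (fun c => Blind m (F m g (k + 1)) c τ) (weights (m := m) (V := V) (k := k)
    (28 / (2 ^ m * t * τ)) (fun j => 55 * t / (2 ^ m * τ) * w j))).mpr h1

theorem hDrop {m : ℕ} (hm : 1 ≤ m) (g : (V → Bool) → Bool) (k : ℕ) (τ : ℝ) (w : ℕ → ℝ)
    (hw : ∀ j, 0 ≤ w j) (H : B m g k τ w) :
    B m g (k + 1) τ (fun j => if j = k + 1 then 0 else w j) := by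
  have h1 := drop (m := m) (fun v => hw _) hm H
  simp only [one_mul] at h1
  exact (congrArg (fun c => Blind m (F m g (k + 1)) c τ) (weights (m := m) (V := V) (k := k)
    0 w)).mpr h1

theorem hData {m : ℕ} {g : (V → Bool) → Bool} (hg : ∃ x y, g x ≠ g y) (k : ℕ)
    (τ : ℝ) (hτ : 0 < τ) :
    B m g (k + 1) τ (fun j => if j = k + 1 then 1 / (2 ^ m * τ) else 0) := by
  have h1 := data (m := m) hτ (F_nonconst m hg k)
  exact (congrArg (fun c => Blind m (F m g (k + 1)) c τ) (weights (m := m) (V := V) (k := k)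
    (1 / (2 ^ m * τ)) (fun _ => 0))).mpr h1

theorem hExact {m : ℕ} (g : (V → Bool) → Bool) (k : ℕ) (Φ : Fm (Var m V k))
    (hΦ : ∀ x, Φ.eval x = F m g k x) (w : ℕ → ℝ) (H : B m g k (1 / 2) w) :
    1 < ∑ j ∈ range (k + 1), w j * leaves j Φ := by
  by_contra hne
  push Not at hne
  obtain ⟨μ, h0, h1, hs, hE⟩ := H
  have h2 := hE (F m g k) ⟨Φ, by rw [cost_level]; exact hne, hΦ⟩
  have e1 : ∑ x, μ true x * ind (F m g k x) = 1 := by
    rw [← h1 true]
    refine sum_congr rfl fun x _ => ?_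
    by_cases hx : μ true x = 0
    · rw [hx, zero_mul]
    · rw [hs true x hx]
      simp [ind]
  have e0 : ∑ x, μ false x * ind (F m g k x) = 0 := by
    refine sum_eq_zero fun x _ => ?_
    by_cases hx : μ false x = 0
    · rw [hx, zero_mul]
    · rw [hs false x hx]
      simp [ind]
  rw [e1, e0] at h2
  norm_num at h2

end

theorem hBase {m n : ℕ} (hm : 1 ≤ m) (g : (Fin n → Bool) → Bool) (hg : ∃ x y, g x ≠ g y)
    (τ : ℝ) (hτ : 0 < τ) :
    B m g 0 τ (fun _ => ((K₀ : ℝ) * (m : ℝ) ^ 6 * (n : ℝ) ^ 3 / fsize g) / τ) := by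
  have hL : (0 : ℝ) < fsize g := by exact_mod_cast fsize_pos hg
  rcases le_or_gt τ 1 with h1 | h1
  · have h2 := base hm g hg hτ h1
    have e : (fun _ : Fin n => ((K₀ : ℝ) * (m : ℝ) ^ 6 * (n : ℝ) ^ 3 / fsize g) / τ) =
        (fun _ => (K₀ : ℝ) * (m : ℝ) ^ 6 * (n : ℝ) ^ 3 / (τ * fsize g)) := by
      funext _
      rw [div_div, mul_comm (fsize g : ℝ) τ]
    exact (congrArg (fun c => Blind m g c τ) e).mpr h2
  · obtain ⟨μ, h0, h2, hs, -⟩ := base hm g hg one_pos le_rfl
    refine ⟨μ, h0, h2, hs, fun h _ => ?_⟩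
    show ∑ x : Fin n → Bool, μ true x * ind (h x) ≤
      (1 + 1 / (8 * (m : ℝ))) * ∑ x : Fin n → Bool, μ false x * ind (h x) + τ
    have e1 : ∑ x : Fin n → Bool, μ true x * ind (h x) ≤ 1 := by
      rw [← h2 true]
      refine sum_le_sum fun x _ => ?_
      have := mul_le_mul_of_nonneg_left (ind_le_one (h x)) (h0 true x)
      linarith
    have e2 : 0 ≤ ∑ x : Fin n → Bool, μ false x * ind (h x) :=
      sum_nonneg fun x _ => mul_nonneg (h0 _ _) (ind_nonneg _)
    have e3 : 0 ≤ (1 + 1 / (8 * (m : ℝ))) * ∑ x : Fin n → Bool, μ false x * ind (h x) :=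
      mul_nonneg (by positivity) e2
    exact (e1.trans h1.le).trans (by linarith)

/-- The lower bound: iterated selection composed with an arbitrary function. -/
theorem main {m n : ℕ} (hm : 1 ≤ m) (g : (Fin n → Bool) → Bool) (hg : ∃ x y, g x ≠ g y) (k : ℕ)
    (Φ : Fm (Var m (Fin n) k)) (hΦ : ∀ x, Φ.eval x = F m g k x) :
    (2 ^ m) ^ ((3 ^ (k + 1) - 3) / 2) * fsize g ≤
      (4 * K₀) * n ^ 3 * m ^ 6 * (44154880 * m) ^ ((3 ^ k - 1) / 2) * leaves 0 Φ *
        ∏ j ∈ range k, leaves (j + 1) Φ ^ (2 * 3 ^ j) := by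
  have hL : (0 : ℝ) < fsize g := by exact_mod_cast fsize_pos hg
  have h1 := tele (B := fun k τ w => B m g k τ w)
    (A := (K₀ : ℝ) * (m : ℝ) ^ 6 * (n : ℝ) ^ 3 / fsize g) (R := 2 ^ m) hm (by positivity)
    (by positivity) (fun k t τ w hτ ht hR hw H => hStep hm g k t τ w hτ ht hR hw H)
    (fun k τ w hτ hw H => hDrop hm g k τ w hw H) (fun k τ hτ => hData hg k τ hτ)
    (fun τ hτ => hBase hm g hg τ hτ) (s := fun j => (leaves j Φ : ℝ))
    (fun j => Nat.cast_nonneg _) k (fun w hw H => hExact g k Φ hΦ w H)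
  have h2 := mul_le_mul_of_nonneg_right h1 hL.le
  have e : (4 * ((K₀ : ℝ) * (m : ℝ) ^ 6 * (n : ℝ) ^ 3 / fsize g) * (32 * CC * m) ^ (ee k) *
      (leaves 0 Φ : ℝ) * ∏ j ∈ range k, (leaves (j + 1) Φ : ℝ) ^ (2 * 3 ^ j)) * fsize g =
      (4 * K₀) * n ^ 3 * m ^ 6 * (44154880 * m) ^ (ee k) * leaves 0 Φ *
        ∏ j ∈ range k, (leaves (j + 1) Φ : ℝ) ^ (2 * 3 ^ j) := by
    have : (32 * CC * m : ℝ) = 44154880 * m := by
      simp only [CC]; norm_num
    rw [this]
    field_simp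
  rw [e] at h2
  have h4 : (3 ^ k - 1) / 2 = ee k := (ee_eq k).symm
  have h3 : (3 ^ (k + 1) - 3) / 2 = 3 * ee k := by
    have := ee_spec k
    rw [pow_succ, ← this]
    omega
  rw [h3, h4]
  exact_mod_cast h2

end Pool.Agent.H.MP_027d00_lc.Iter
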