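import Pool.Agent.H.MP_027d00_lc.iter.Cost
import Pool.Agent.H.MP_027d00_lc.ucomp.Final

/-!
# The mass of the sensitive pairs
-/

set_option autoImplicit false

open Finset

namespace Pool.Agent.H.MP_027d00_lc.Iter

open Pool.Agent.H.MP_027d00_lc.UComp Pool.Agent.H.MP_027d00_lc.Sel

section

variable {Z V : Type} {m : ℕ}

/-- The input given by the data `p` and the rows `X`. -/
def inp (p : Z → Bool) (X : Rw m V) : Z ⊕ (Fin m × V) → Bool := Sum.elim p (fun v => X v.1 v.2)

/-- The weighted number of leaves in the rows. -/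
def low (c : V → ℝ) (Φ : Fm (Z ⊕ (Fin m × V))) : ℝ :=
  cost (Sum.elim (fun _ => 0) (fun v => c v.2)) Φ

theorem low_nonneg {c : V → ℝ} (hc : ∀ v, 0 ≤ c v) (Φ : Fm (Z ⊕ (Fin m × V))) : 0 ≤ low c Φ :=
  cost_nonneg (fun v => by cases v with
    | inl z => exact le_rfl
    | inr v => exact hc _) Φ

theorem cost_split (α β : ℝ) (c : V → ℝ) (Φ : Fm (Z ⊕ (Fin m × V))) :
    cost (Sum.elim (fun _ => α) (fun v => β * c v.2)) Φ = α * dataLeaves Φ + β * low c Φ := by
  induction Φ with
  | const b => simp [cost, dataLeaves, low]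
  | lit v b => cases v <;> simp [cost, dataLeaves, low]
  | and F G ihF ihG =>
    simp only [low] at ihF ihG
    simp only [cost, dataLeaves, low, ihF, ihG]; push_cast; ring
  | or F G ihF ihG =>
    simp only [low] at ihF ihG
    simp only [cost, dataLeaves, low, ihF, ihG]; push_cast; ring

theorem fixData_cost (p : Z → Bool) (c : V → ℝ) (Φ : Fm (Z ⊕ (Fin m × V))) :
    cost (fun v : Fin m × V => c v.2) (fixData p Φ) = low c Φ := by
  induction Φ with
  | const b => rfl
  | lit v b => cases v <;> rfl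
  | and F G ihF ihG =>
    have := ihF; have := ihG
    simp only [fixData, low] at *
    simp only [substF, cost, *]
  | or F G ihF ihG =>
    have := ihF; have := ihG
    simp only [fixData, low] at *
    simp only [substF, cost, *]

theorem fixMat_eval (X : Rw m V) (Φ : Fm (Z ⊕ (Fin m × V))) (p : Z → Bool) :
    (fixMat (fun v => X v.1 v.2) Φ).eval p = Φ.eval (inp p X) := by
  rw [fixMat, substF_eval]
  congr 1
  funext v
  cases v <;> rfl

theorem fixData_eval (p : Z → Bool) (Φ : Fm (Z ⊕ (Fin m × V))) (X : Rw m V) :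
    (fixData p Φ).eval (fun v => X v.1 v.2) = Φ.eval (inp p X) := by
  rw [fixData, substF_eval]
  congr 1
  funext v
  cases v <;> rfl

variable [DecidableEq Z]

theorem eval_flip (Φ : Fm (Z ⊕ (Fin m × V))) {z : Z} (hz : z ∉ occ Φ) (p : Z → Bool)
    (X : Rw m V) : Φ.eval (inp (Sel.flip p z) X) = Φ.eval (inp p X) := by
  induction Φ with
  | const b => rfl
  | lit v b =>
    cases v with
    | inl y =>
      simp only [occ, mem_singleton] at hz
      simp only [Fm.eval, inp, Sum.elim_inl]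
      rw [Sel.flip_ne p (Ne.symm hz)]
    | inr v => rfl
  | and F G ihF ihG =>
    simp only [occ, mem_union, not_or] at hz
    simp only [Fm.eval, ihF hz.1, ihG hz.2]
  | or F G ihF ihG =>
    simp only [occ, mem_union, not_or] at hz
    simp only [Fm.eval, ihF hz.1, ihG hz.2]

/-- The bit `z` is sensitive downwards at `(p, X)`. -/
def sn (Φ : Fm (Z ⊕ (Fin m × V))) (z : Z) (p : Z → Bool) (X : Rw m V) : Bool :=
  Φ.eval (inp p X) && !(Φ.eval (inp (Sel.flip p z) X))

theorem sn_cs {c : V → ℝ} {s : ℝ} (Φ : Fm (Z ⊕ (Fin m × V))) (hw : 2 * low c Φ ≤ s) (z : Z)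
    (p : Z → Bool) : CsM c s (fun X => sn Φ z p X) := by
  refine ⟨.and (fixData p Φ) (Comp.neg (fixData (Sel.flip p z) Φ)), ?_, ?_⟩
  · simp only [cost, cost_neg, fixData_cost]
    linarith
  · intro x
    have h1 := fixData_eval p Φ (fun i v => x (i, v))
    have h2 := fixData_eval (Sel.flip p z) Φ (fun i v => x (i, v))
    simp only [Fm.eval, Comp.neg_eval, sn]
    rw [← h1, ← h2]

end

variable {Z V : Type} [Fintype Z] [DecidableEq Z] [Fintype V] [DecidableEq V] {m : ℕ}

/-- The mass of the sensitive triples `(z, p, X)`, `X` distributed according to `W μ (a z)`. -/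
noncomputable def mass (μ : Bool → (V → Bool) → ℝ) (a : Z → Fin m → Bool)
    (Φ : Fm (Z ⊕ (Fin m × V))) : ℝ :=
  ∑ z, ∑ X, W μ (a z) X * ∑ p, ind (sn Φ z p X)

theorem mass_le_of_sn {μ : Bool → (V → Bool) → ℝ} (h0 : ∀ b x, 0 ≤ μ b x)
    {a : Z → Fin m → Bool} {Φ : Fm (Z ⊕ (Fin m × V))} {l : List (Fm (Z ⊕ (Fin m × V)))}
    (h : ∀ z p X, sn Φ z p X = true → ∃ Ψ ∈ l, sn Ψ z p X = true) :
    mass μ a Φ ≤ (l.map (mass μ a)).sum := by
  have h1 : ∀ z p X, ind (sn Φ z p X) ≤ (l.map (fun Ψ => ind (sn Ψ z p X))).sum := by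
    intro z p X
    by_cases hs : sn Φ z p X = true
    · obtain ⟨Ψ, hΨ, hΨ'⟩ := h z p X hs
      have h2 : ind (sn Ψ z p X) ≤ (l.map (fun Ψ => ind (sn Ψ z p X))).sum :=
        List.single_le_sum (by
          intro x hx
          obtain ⟨Ψ', _, rfl⟩ := List.mem_map.1 hx
          exact ind_nonneg _) _ (List.mem_map.2 ⟨Ψ, hΨ, rfl⟩)
      rw [hs, ← hΨ']
      exact h2
    · simp only [Bool.not_eq_true] at hs
      rw [hs]
      simp only [ind]
      refine List.sum_nonneg ?_
      intro x hx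
      obtain ⟨Ψ', _, rfl⟩ := List.mem_map.1 hx
      exact ind_nonneg _
  have h2 : ∀ l : List (Fm (Z ⊕ (Fin m × V))), (l.map (mass μ a)).sum =
      ∑ z, ∑ X, W μ (a z) X * ∑ p, (l.map (fun Ψ => ind (sn Ψ z p X))).sum := by
    intro l
    induction l with
    | nil => simp
    | cons Ψ l ih =>
      simp only [List.map_cons, List.sum_cons, ih, sum_add_distrib, mul_add]
      rfl
  rw [h2]
  unfold mass
  exact sum_le_sum fun z _ => sum_le_sum fun X _ =>
    mul_le_mul_of_nonneg_left (sum_le_sum fun p _ => h1 z p X) (W_nonneg h0 _ _)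

theorem mass_or {μ : Bool → (V → Bool) → ℝ} (h0 : ∀ b x, 0 ≤ μ b x)
    (a : Z → Fin m → Bool) (F G : Fm (Z ⊕ (Fin m × V))) :
    mass μ a (.or F G) ≤ mass μ a F + mass μ a G := by
  have := mass_le_of_sn h0 (a := a) (Φ := .or F G) (l := [F, G]) (by
    intro z p X h
    simp only [sn, Fm.eval, Bool.and_eq_true, Bool.or_eq_true, Bool.not_eq_true',
      Bool.or_eq_false_iff] at h
    obtain ⟨h1 | h1, h2, h3⟩ := h
    · exact ⟨F, by simp, by simp [sn, h1, h2]⟩
    · exact ⟨G, by simp, by simp [sn, h1, h3]⟩)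
  simpa using this

theorem mass_and {μ : Bool → (V → Bool) → ℝ} (h0 : ∀ b x, 0 ≤ μ b x)
    (a : Z → Fin m → Bool) (F G : Fm (Z ⊕ (Fin m × V))) :
    mass μ a (.and F G) ≤ mass μ a F + mass μ a G := by
  have := mass_le_of_sn h0 (a := a) (Φ := .and F G) (l := [F, G]) (by
    intro z p X h
    simp only [sn, Fm.eval, Bool.and_eq_true, Bool.not_eq_true', Bool.and_eq_false_iff] at h
    obtain ⟨⟨h1, h2⟩, h3 | h3⟩ := h
    · exact ⟨F, by simp, by simp [sn, h1, h3]⟩
    · exact ⟨G, by simp, by simp [sn, h2, h3]⟩)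
  simpa using this

/-- Contexts: monotone functions of the value of the formula in the hole, of weight `x`. -/
structure IsCtx (w : Z ⊕ (Fin m × V) → ℝ) (κ : Fm (Z ⊕ (Fin m × V)) → Fm (Z ⊕ (Fin m × V)))
    (x : ℝ) : Prop where
  cst : ∀ u, cost w (κ u) = x + cost w u
  mono : ∀ u v y, (u.eval y = true → v.eval y = true) → (κ u).eval y = true → (κ v).eval y = true

omit [Fintype Z] [DecidableEq Z] [Fintype V] [DecidableEq V] in
theorem IsCtx.id {w : Z ⊕ (Fin m × V) → ℝ} : IsCtx w (fun u => u) 0 :=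
  ⟨fun u => by simp, fun _ _ _ h => h⟩

omit [Fintype Z] [DecidableEq Z] [Fintype V] [DecidableEq V] in
theorem IsCtx.orL {w : Z ⊕ (Fin m × V) → ℝ}
    {κ : Fm (Z ⊕ (Fin m × V)) → Fm (Z ⊕ (Fin m × V))} {x : ℝ} (h : IsCtx w κ x)
    (G : Fm (Z ⊕ (Fin m × V))) : IsCtx w (fun u => κ (.or G u)) (x + cost w G) := by
  refine ⟨fun u => ?_, fun u v y huv => ?_⟩
  · rw [h.cst]; simp only [cost]; ring
  · refine h.mono _ _ y ?_
    simp only [Fm.eval, Bool.or_eq_true]
    exact Or.imp_right huv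

omit [Fintype Z] [DecidableEq Z] [Fintype V] [DecidableEq V] in
theorem IsCtx.orR {w : Z ⊕ (Fin m × V) → ℝ}
    {κ : Fm (Z ⊕ (Fin m × V)) → Fm (Z ⊕ (Fin m × V))} {x : ℝ} (h : IsCtx w κ x)
    (G : Fm (Z ⊕ (Fin m × V))) : IsCtx w (fun u => κ (.or u G)) (x + cost w G) := by
  refine ⟨fun u => ?_, fun u v y huv => ?_⟩
  · rw [h.cst]; simp only [cost]; ring
  · refine h.mono _ _ y ?_
    simp only [Fm.eval, Bool.or_eq_true]
    exact Or.imp_left huv

omit [Fintype Z] [DecidableEq Z] [Fintype V] [DecidableEq V] in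
theorem IsCtx.andL {w : Z ⊕ (Fin m × V) → ℝ}
    {κ : Fm (Z ⊕ (Fin m × V)) → Fm (Z ⊕ (Fin m × V))} {x : ℝ} (h : IsCtx w κ x)
    (G : Fm (Z ⊕ (Fin m × V))) : IsCtx w (fun u => κ (.and G u)) (x + cost w G) := by
  refine ⟨fun u => ?_, fun u v y huv => ?_⟩
  · rw [h.cst]; simp only [cost]; ring
  · refine h.mono _ _ y ?_
    simp only [Fm.eval, Bool.and_eq_true]
    exact And.imp_right huv

omit [Fintype Z] [DecidableEq Z] [Fintype V] [DecidableEq V] in
theorem IsCtx.andR {w : Z ⊕ (Fin m × V) → ℝ}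
    {κ : Fm (Z ⊕ (Fin m × V)) → Fm (Z ⊕ (Fin m × V))} {x : ℝ} (h : IsCtx w κ x)
    (G : Fm (Z ⊕ (Fin m × V))) : IsCtx w (fun u => κ (.and u G)) (x + cost w G) := by
  refine ⟨fun u => ?_, fun u v y huv => ?_⟩
  · rw [h.cst]; simp only [cost]; ring
  · refine h.mono _ _ y ?_
    simp only [Fm.eval, Bool.and_eq_true]
    exact And.imp_left huv

theorem mass_ctx {μ : Bool → (V → Bool) → ℝ} (h0 : ∀ b x, 0 ≤ μ b x)
    (a : Z → Fin m → Bool) {κ : Fm (Z ⊕ (Fin m × V)) → Fm (Z ⊕ (Fin m × V))} {w : Z ⊕ (Fin m × V) → ℝ} {x : ℝ}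
    (hκ : IsCtx w κ x) (u : Fm (Z ⊕ (Fin m × V))) :
    mass μ a (κ u) ≤ mass μ a (κ (.const false)) + mass μ a (κ (.const true)) + mass μ a u := by
  have := mass_le_of_sn h0 (a := a) (Φ := κ u) (l := [κ (.const false), κ (.const true), u]) (by
    intro z p X h
    simp only [sn, Bool.and_eq_true, Bool.not_eq_true'] at h
    obtain ⟨h1, h2⟩ := h
    -- the context with the hole 0 is 0 after the flip
    have e1 : (κ (.const false)).eval (inp (Sel.flip p z) X) = false := by
      by_contra hne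
      rw [Bool.not_eq_false] at hne
      have := hκ.mono (.const false) u _ (by simp [Fm.eval]) hne
      rw [h2] at this
      exact absurd this (by simp)
    have e2 : (κ (.const true)).eval (inp p X) = true :=
      hκ.mono u (.const true) _ (by simp [Fm.eval]) h1
    by_cases e3 : (κ (.const false)).eval (inp p X) = true
    · exact ⟨κ (.const false), by simp, by simp [sn, e1, e3]⟩
    by_cases e4 : (κ (.const true)).eval (inp (Sel.flip p z) X) = false
    · exact ⟨κ (.const true), by simp, by simp [sn, e2, e4]⟩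
    refine ⟨u, by simp, ?_⟩
    have e5 : u.eval (inp p X) = true := by
      by_contra hne
      rw [Bool.not_eq_true] at hne
      exact e3 (hκ.mono u (.const false) _ (by rw [hne]; simp) h1)
    have e6 : u.eval (inp (Sel.flip p z) X) = false := by
      by_contra hne
      rw [Bool.not_eq_false] at hne
      rw [Bool.not_eq_false] at e4
      have := hκ.mono (.const true) u (inp (Sel.flip p z) X) (fun _ => hne) e4
      rw [h2] at this
      exact absurd this (by simp)
    simp [sn, e5, e6])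
  simp only [List.map_cons, List.map_nil, List.sum_cons, List.sum_nil] at this
  linarith

end Pool.Agent.H.MP_027d00_lc.Iter
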