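import Pool.Agent.H.MP_027d00_lc.iter.Light
import Pool.Agent.H.MP_027d00_lc.mux.Final

/-!
# Blindness passes from `g` to the selection composed with `g`
-/

set_option autoImplicit false

open Finset

namespace Pool.Agent.H.MP_027d00_lc.Iter

open Pool.Agent.H.MP_027d00_lc.UComp Pool.Agent.H.MP_027d00_lc.Sel

/-- There are distributions on `g⁻¹(1)` and `g⁻¹(0)` which formulas of weighted size at most `1`
do not distinguish. -/
def Blind (m : ℕ) {V : Type} [Fintype V] [DecidableEq V] (g : (V → Bool) → Bool) (c : V → ℝ)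
    (τ : ℝ) : Prop :=
  ∃ μ : Bool → (V → Bool) → ℝ, (∀ b x, 0 ≤ μ b x) ∧ (∀ b, ∑ x, μ b x = 1) ∧
    (∀ b x, μ b x ≠ 0 → g x = b) ∧ ∀ h : (V → Bool) → Bool, Cs c 1 h →
      ∑ x, μ true x * ind (h x) ≤ (1 + 1 / (8 * (m : ℝ))) * ∑ x, μ false x * ind (h x) + τ

/-- Selection composed with `g`. -/
def sel {m : ℕ} {V : Type} (g : (V → Bool) → Bool) (x : (Fin m → Bool) ⊕ (Fin m × V) → Bool) :
    Bool :=
  x (.inl (fun i => g (fun v => x (.inr (i, v)))))

section

variable {V : Type} [Fintype V] [DecidableEq V] {m : ℕ}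

theorem sum_inp (G : ((Fin m → Bool) ⊕ (Fin m × V) → Bool) → ℝ) :
    ∑ x, G x = ∑ p : (Fin m → Bool) → Bool, ∑ X : Rw m V, G (inp p X) := by
  set E : ((Fin m → Bool) ⊕ (Fin m × V) → Bool) ≃ ((Fin m → Bool) → Bool) × Rw m V :=
    (Equiv.sumArrowEquivProdArrow _ _ _).trans
      (Equiv.prodCongr (Equiv.refl _) (Equiv.curry _ _ _)) with hE
  rw [← E.symm.sum_comp, Fintype.sum_prod_type]
  refine sum_congr rfl fun p _ => sum_congr rfl fun X _ => ?_
  congr 1

theorem sum_bit (z : Fin m → Bool) (b : Bool) :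
    2 * ∑ p : (Fin m → Bool) → Bool, (if p z = b then (1 : ℝ) else 0) =
      2 ^ Fintype.card (Fin m → Bool) := by
  have h1 := sum_ind_bit z
  cases b with
  | true =>
    rw [← h1]
    rfl
  | false =>
    have h2 : ∑ p : (Fin m → Bool) → Bool, (if p z = false then (1 : ℝ) else 0) =
        ∑ p : (Fin m → Bool) → Bool, (1 - ind (p z)) := by
      refine sum_congr rfl fun p _ => ?_
      cases p z <;> simp [ind]
    have hcard : (Fintype.card ((Fin m → Bool) → Bool) : ℝ) =
        2 ^ Fintype.card (Fin m → Bool) := by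
      rw [Fintype.card_fun, Fintype.card_bool]
      push_cast
      rfl
    rw [h2, sum_sub_distrib, sum_const, card_univ, nsmul_eq_mul, hcard, mul_sub, h1]
    ring

/-- The sum over `p` with `p z = b`. -/
theorem sum_flip (z : Fin m → Bool) (G : ((Fin m → Bool) → Bool) → ℝ) :
    ∑ p : (Fin m → Bool) → Bool, (if p z = false then G p else 0) =
      ∑ p : (Fin m → Bool) → Bool, (if p z = true then G (Sel.flip p z) else 0) := by
  have hinv : Function.Involutive (fun p : (Fin m → Bool) → Bool => Sel.flip p z) :=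
    fun p => Sel.flip_flip p z
  rw [← Equiv.sum_comp hinv.toPerm
    (fun p : (Fin m → Bool) → Bool => if p z = false then G p else 0)]
  refine sum_congr rfl fun p _ => ?_
  simp only [Function.Involutive.coe_toPerm, Sel.flip_same]
  cases p z <;> simp

/-- The distributions for the selection. -/
noncomputable def nu (μ : Bool → (V → Bool) → ℝ) (b : Bool)
    (x : (Fin m → Bool) ⊕ (Fin m × V) → Bool) : ℝ :=
  2 / ((2 : ℝ) ^ m * 2 ^ Fintype.card (Fin m → Bool)) *
    ∑ z : Fin m → Bool, if x (.inl z) = b then Iter.W μ z (fun i v => x (.inr (i, v))) else 0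

theorem nu_sum (μ : Bool → (V → Bool) → ℝ) (b : Bool)
    (G : ((Fin m → Bool) ⊕ (Fin m × V) → Bool) → ℝ) :
    ∑ x, nu μ b x * G x = 2 / ((2 : ℝ) ^ m * 2 ^ Fintype.card (Fin m → Bool)) *
      ∑ z : Fin m → Bool, ∑ X : Rw m V, Iter.W μ z X *
        ∑ p : (Fin m → Bool) → Bool, (if p z = b then G (inp p X) else 0) := by
  rw [sum_inp]
  have h1 : ∀ (p : (Fin m → Bool) → Bool) (X : Rw m V), nu μ b (inp p X) * G (inp p X) =
      2 / ((2 : ℝ) ^ m * 2 ^ Fintype.card (Fin m → Bool)) *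
      ∑ z : Fin m → Bool, Iter.W μ z X * (if p z = b then G (inp p X) else 0) := by
    intro p X
    unfold nu
    rw [mul_assoc, sum_mul]
    congr 1
    refine sum_congr rfl fun z _ => ?_
    have e : inp p X (.inl z) = p z := rfl
    have e2 : (fun i v => inp p X (.inr (i, v))) = X := rfl
    rw [e, e2]
    split_ifs <;> ring
  rw [sum_congr rfl fun p _ => sum_congr rfl fun X _ => h1 p X]
  simp only [← mul_sum]
  congr 1
  rw [sum_congr rfl fun p _ => sum_comm, sum_comm]
  refine sum_congr rfl fun z _ => ?_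
  rw [sum_comm]
  refine sum_congr rfl fun X _ => ?_
  rw [mul_sum]

theorem nu_nonneg {μ : Bool → (V → Bool) → ℝ} (h0 : ∀ b x, 0 ≤ μ b x) (b : Bool)
    (x : (Fin m → Bool) ⊕ (Fin m × V) → Bool) : 0 ≤ nu μ b x := by
  refine mul_nonneg (by positivity) (sum_nonneg fun z _ => ?_)
  split_ifs
  · exact W_nonneg h0 _ _
  · exact le_rfl

theorem nu_total {μ : Bool → (V → Bool) → ℝ} (h1 : ∀ b, ∑ x, μ b x = 1) (b : Bool) :
    ∑ x : (Fin m → Bool) ⊕ (Fin m × V) → Bool, nu μ b x = 1 := by
  have hcardZ : Fintype.card (Fin m → Bool) = 2 ^ m := by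
    rw [Fintype.card_fun, Fintype.card_bool, Fintype.card_fin]
  have hN0 : (0 : ℝ) < 2 ^ Fintype.card (Fin m → Bool) := by positivity
  have h2 := nu_sum (m := m) μ b (fun _ => 1)
  simp only [mul_one] at h2
  rw [h2]
  have h3 : ∀ z : Fin m → Bool, ∑ X : Rw m V, Iter.W μ z X *
      ∑ p : (Fin m → Bool) → Bool, (if p z = b then (1 : ℝ) else 0) =
      2 ^ Fintype.card (Fin m → Bool) / 2 := by
    intro z
    rw [← sum_mul, W_sum h1, one_mul]
    have := sum_bit z b
    linarith
  rw [sum_congr rfl fun z _ => h3 z, sum_const, card_univ, nsmul_eq_mul, hcardZ]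
  push_cast
  rw [hcardZ] at hN0
  field_simp

theorem nu_supp {μ : Bool → (V → Bool) → ℝ} {g : (V → Bool) → Bool}
    (hs : ∀ b x, μ b x ≠ 0 → g x = b) (b : Bool) (x : (Fin m → Bool) ⊕ (Fin m × V) → Bool)
    (hx : nu μ b x ≠ 0) : sel g x = b := by
  unfold nu at hx
  have h2 := right_ne_zero_of_mul hx
  obtain ⟨z, _, hz⟩ := exists_ne_zero_of_sum_ne_zero h2
  by_cases hb : x (.inl z) = b
  · rw [if_pos hb] at hz
    have h3 := W_supp hs hz
    unfold sel
    rw [h3]
    exact hb
  · rw [if_neg hb] at hz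
    exact absurd rfl hz

theorem step {t : ℕ} {τ : ℝ} {c : V → ℝ} (hc : ∀ v, 0 ≤ c v) (hm : 1 ≤ m) (ht : 1 ≤ t)
    (hτ : 0 < τ) (hR : 5 * (t : ℝ) ≤ 2 ^ m * τ) {g : (V → Bool) → Bool}
    (H : Blind m g c (1 / (2 * (m : ℝ) * t))) :
    Blind m (sel (m := m) g) (Sum.elim (fun _ => 28 / ((2 : ℝ) ^ m * t * τ))
      (fun v => 55 * t / ((2 : ℝ) ^ m * τ) * c v.2)) τ := by
  obtain ⟨μ, h0, h1, hs, hE⟩ := H
  have hR0 : (0 : ℝ) < 2 ^ m := by positivity
  have hN0 : (0 : ℝ) < 2 ^ Fintype.card (Fin m → Bool) := by positivity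
  have ht0 : (0 : ℝ) < t := by exact_mod_cast ht
  refine ⟨fun b x => nu μ b x, nu_nonneg h0, nu_total h1, nu_supp hs, ?_⟩
  · rintro h ⟨Φ, hcost, hev⟩
    rw [cost_split] at hcost
    rw [nu_sum, nu_sum]
    set A : ℝ := 2 / ((2 : ℝ) ^ m * 2 ^ Fintype.card (Fin m → Bool)) with hA
    have hA0 : 0 ≤ A := by positivity
    set S : Bool → ℝ := fun b => ∑ z : Fin m → Bool, ∑ X : Rw m V, Iter.W μ z X *
        ∑ p : (Fin m → Bool) → Bool, (if p z = b then ind (h (inp p X)) else 0) with hS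
    have hS0 : 0 ≤ S false := sum_nonneg fun z _ => sum_nonneg fun X _ =>
      mul_nonneg (W_nonneg h0 _ _) (sum_nonneg fun p _ => by
        split_ifs
        · exact ind_nonneg _
        · exact le_rfl)
    -- the difference is bounded by the mass
    have hdiff : S true ≤ S false + mass μ (fun z : Fin m → Bool => z) Φ := by
      simp only [hS, mass]
      rw [← sum_add_distrib]
      refine sum_le_sum fun z _ => ?_
      rw [← sum_add_distrib]
      refine sum_le_sum fun X _ => ?_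
      rw [← mul_add]
      refine mul_le_mul_of_nonneg_left ?_ (W_nonneg h0 _ _)
      rw [sum_flip z (fun p => ind (h (inp p X))), ← sum_add_distrib]
      refine sum_le_sum fun p _ => ?_
      have e1 : h (inp p X) = Φ.eval (inp p X) := (hev _).symm
      have e2 : h (inp (Sel.flip p z) X) = Φ.eval (inp (Sel.flip p z) X) := (hev _).symm
      simp only [e1, e2, Iter.sn]
      cases p z <;> cases Φ.eval (inp p X) <;> cases Φ.eval (inp (Sel.flip p z) X) <;>
        simp [ind]
    have hmass := mass_bound h0 h1 hc hm ht hE (fun z : Fin m → Bool => z) Φ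
    have hlow := low_nonneg hc Φ
    have hd : (0 : ℝ) ≤ dataLeaves Φ := Nat.cast_nonneg _
    -- the numbers
    have key : A * mass μ (fun z : Fin m → Bool => z) Φ ≤ τ := by
      have e1 : A * mass μ (fun z : Fin m → Bool => z) Φ ≤ A * (8 / 7 * (t : ℝ) *
          2 ^ Fintype.card (Fin m → Bool) *
          (6 * ((dataLeaves Φ : ℝ) / (t : ℝ) ^ 2 + 2 * low c Φ) + 1)) :=
        mul_le_mul_of_nonneg_left hmass hA0
      refine e1.trans ?_
      have e2 : A * (8 / 7 * (t : ℝ) * 2 ^ Fintype.card (Fin m → Bool) *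
          (6 * ((dataLeaves Φ : ℝ) / (t : ℝ) ^ 2 + 2 * low c Φ) + 1)) =
          96 / 7 * (dataLeaves Φ / ((2 : ℝ) ^ m * t)) + 192 / 7 * (t * low c Φ / (2 : ℝ) ^ m) +
            16 / 7 * (t / (2 : ℝ) ^ m) := by
        rw [hA]
        field_simp
        ring
      rw [e2]
      have e3 : 28 / ((2 : ℝ) ^ m * t * τ) * dataLeaves Φ * τ =
          28 * (dataLeaves Φ / ((2 : ℝ) ^ m * t)) := by field_simp
      have e4 : 55 * t / ((2 : ℝ) ^ m * τ) * low c Φ * τ =
          55 * (t * low c Φ / (2 : ℝ) ^ m) := by field_simp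
      have e5 := mul_le_mul_of_nonneg_right hcost hτ.le
      rw [add_mul, e3, e4, one_mul] at e5
      have e6 : 5 * (t / (2 : ℝ) ^ m) ≤ τ := by
        rw [← mul_div_assoc, div_le_iff₀ hR0]
        linarith
      have e7 : 0 ≤ dataLeaves Φ / ((2 : ℝ) ^ m * t) := by positivity
      have e8 : 0 ≤ t * low c Φ / (2 : ℝ) ^ m := by positivity
      linarith
    have e1 : A * S true ≤ A * S false + A * mass μ (fun z : Fin m → Bool => z) Φ := by
      rw [← mul_add]
      exact mul_le_mul_of_nonneg_left hdiff hA0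
    have e2 : 0 ≤ A * S false := mul_nonneg hA0 hS0
    have e3 : A * S false ≤ (1 + 1 / (8 * (m : ℝ))) * (A * S false) := by
      have : (0 : ℝ) ≤ 1 / (8 * (m : ℝ)) := by positivity
      nlinarith
    calc A * S true ≤ A * S false + A * mass μ (fun z : Fin m → Bool => z) Φ := e1
      _ ≤ (1 + 1 / (8 * (m : ℝ))) * (A * S false) + τ := add_le_add e3 key

/-- Data that do not occur do not help. -/
theorem data {τ : ℝ} (hτ : 0 < τ) {g : (V → Bool) → Bool} (hg : ∃ x y, g x ≠ g y) :
    Blind m (sel (m := m) g) (Sum.elim (fun _ => 1 / ((2 : ℝ) ^ m * τ)) (fun _ => 0)) τ := by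
  have hex : ∀ b : Bool, ∃ x, g x = b := by
    obtain ⟨x, y, hxy⟩ := hg
    intro b
    cases hx : g x <;> cases hy : g y <;> cases b <;> simp_all
    all_goals first | exact ⟨x, hx⟩ | exact ⟨y, hy⟩
  choose x₀ hx₀ using hex
  set μ : Bool → (V → Bool) → ℝ := fun b x => if x = x₀ b then 1 else 0 with hμ
  have h0 : ∀ b x, 0 ≤ μ b x := fun b x => by simp only [hμ]; split_ifs <;> norm_num
  have h1 : ∀ b, ∑ x, μ b x = 1 := fun b => by simp [hμ]
  have hs : ∀ b x, μ b x ≠ 0 → g x = b := by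
    intro b x hx
    by_cases h : x = x₀ b
    · rw [h]; exact hx₀ b
    · simp [hμ, h] at hx
  have hcardZ : Fintype.card (Fin m → Bool) = 2 ^ m := by
    rw [Fintype.card_fun, Fintype.card_bool, Fintype.card_fin]
  have hR0 : (0 : ℝ) < 2 ^ m := by positivity
  have hN0 : (0 : ℝ) < 2 ^ Fintype.card (Fin m → Bool) := by positivity
  refine ⟨fun b x => nu μ b x, nu_nonneg h0, nu_total h1, nu_supp hs, ?_⟩
  rintro h ⟨Φ, hcost, hev⟩
  have hcost' : 1 / ((2 : ℝ) ^ m * τ) * dataLeaves Φ ≤ 1 := by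
    have e := cost_split (1 / ((2 : ℝ) ^ m * τ)) 0 (fun _ : V => (0 : ℝ)) Φ
    have e2 : (fun v : Fin m × V => (0 : ℝ) * (fun _ : V => (0 : ℝ)) v.2) = fun _ => 0 := by
      funext v; simp
    rw [e2] at e
    rw [e] at hcost
    linarith
  rw [nu_sum, nu_sum]
  set A : ℝ := 2 / ((2 : ℝ) ^ m * 2 ^ Fintype.card (Fin m → Bool)) with hA
  have hA0 : 0 ≤ A := by positivity
  set S : Bool → ℝ := fun b => ∑ z : Fin m → Bool, ∑ X : Rw m V, Iter.W μ z X *
      ∑ p : (Fin m → Bool) → Bool, (if p z = b then ind (h (inp p X)) else 0) with hS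
  have hS0 : 0 ≤ S false := sum_nonneg fun z _ => sum_nonneg fun X _ =>
    mul_nonneg (W_nonneg h0 _ _) (sum_nonneg fun p _ => by
      split_ifs
      · exact ind_nonneg _
      · exact le_rfl)
  have hone : ∀ z : Fin m → Bool, ∑ X : Rw m V, Iter.W μ z X *
        ∑ p : (Fin m → Bool) → Bool, (if p z = true then ind (h (inp p X)) else 0) ≤
      ∑ X : Rw m V, Iter.W μ z X *
        ∑ p : (Fin m → Bool) → Bool, (if p z = false then ind (h (inp p X)) else 0) +
      (if z ∈ occ Φ then (2 : ℝ) ^ Fintype.card (Fin m → Bool) / 2 else 0) := by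
    intro z
    by_cases hz : z ∈ occ Φ
    · rw [if_pos hz]
      have e1 : ∀ X : Rw m V, ∑ p : (Fin m → Bool) → Bool,
          (if p z = true then ind (h (inp p X)) else 0) ≤
          (2 : ℝ) ^ Fintype.card (Fin m → Bool) / 2 := by
        intro X
        have e2 := sum_bit z true
        have e3 : ∑ p : (Fin m → Bool) → Bool, (if p z = true then ind (h (inp p X)) else 0) ≤
            ∑ p : (Fin m → Bool) → Bool, (if p z = true then (1 : ℝ) else 0) := by
          refine sum_le_sum fun p _ => ?_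
          split_ifs
          · exact ind_le_one _
          · exact le_rfl
        linarith
      have e2 : ∑ X : Rw m V, Iter.W μ z X *
          ∑ p : (Fin m → Bool) → Bool, (if p z = true then ind (h (inp p X)) else 0) ≤
          (2 : ℝ) ^ Fintype.card (Fin m → Bool) / 2 := by
        calc ∑ X : Rw m V, Iter.W μ z X *
            ∑ p : (Fin m → Bool) → Bool, (if p z = true then ind (h (inp p X)) else 0)
            ≤ ∑ X : Rw m V, Iter.W μ z X * ((2 : ℝ) ^ Fintype.card (Fin m → Bool) / 2) :=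
              sum_le_sum fun X _ => mul_le_mul_of_nonneg_left (e1 X) (W_nonneg h0 _ _)
          _ = _ := by rw [← sum_mul, W_sum h1, one_mul]
      have e3 : 0 ≤ ∑ X : Rw m V, Iter.W μ z X *
          ∑ p : (Fin m → Bool) → Bool, (if p z = false then ind (h (inp p X)) else 0) :=
        sum_nonneg fun X _ => mul_nonneg (W_nonneg h0 _ _) (sum_nonneg fun p _ => by
          split_ifs
          · exact ind_nonneg _
          · exact le_rfl)
      linarith
    · rw [if_neg hz, add_zero]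
      refine sum_le_sum fun X _ => mul_le_mul_of_nonneg_left ?_ (W_nonneg h0 _ _)
      rw [sum_flip z (fun p => ind (h (inp p X)))]
      refine sum_le_sum fun p _ => ?_
      have e1 : h (inp (Sel.flip p z) X) = h (inp p X) := by
        rw [← hev, ← hev, eval_flip Φ hz]
      rw [e1]
  have hdiff : S true ≤ S false +
      (occ Φ).card * ((2 : ℝ) ^ Fintype.card (Fin m → Bool) / 2) := by
    simp only [hS]
    have e1 : ∑ z : Fin m → Bool, (if z ∈ occ Φ then (2 : ℝ) ^ Fintype.card (Fin m → Bool) / 2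
        else 0) = (occ Φ).card * ((2 : ℝ) ^ Fintype.card (Fin m → Bool) / 2) := by
      rw [sum_ite_mem, univ_inter, sum_const, nsmul_eq_mul]
    rw [← e1, ← sum_add_distrib]
    exact sum_le_sum fun z _ => hone z
  have hocc : ((occ Φ).card : ℝ) ≤ dataLeaves Φ := by exact_mod_cast card_occ Φ
  have key : A * ((occ Φ).card * ((2 : ℝ) ^ Fintype.card (Fin m → Bool) / 2)) ≤ τ := by
    have e1 : A * ((occ Φ).card * ((2 : ℝ) ^ Fintype.card (Fin m → Bool) / 2)) =
        (occ Φ).card / (2 : ℝ) ^ m := by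
      rw [hA]
      field_simp
    rw [e1, div_le_iff₀ hR0]
    have e2 : 1 / ((2 : ℝ) ^ m * τ) * dataLeaves Φ * ((2 : ℝ) ^ m * τ) = dataLeaves Φ := by
      field_simp
    have e3 := mul_le_mul_of_nonneg_right hcost' (by positivity : 0 ≤ (2 : ℝ) ^ m * τ)
    rw [e2] at e3
    linarith
  have e1 : A * S true ≤ A * S false +
      A * ((occ Φ).card * ((2 : ℝ) ^ Fintype.card (Fin m → Bool) / 2)) := by
    rw [← mul_add]
    exact mul_le_mul_of_nonneg_left hdiff hA0
  have e2 : 0 ≤ A * S false := mul_nonneg hA0 hS0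
  have e3 : A * S false ≤ (1 + 1 / (8 * (m : ℝ))) * (A * S false) := by
    have : (0 : ℝ) ≤ 1 / (8 * (m : ℝ)) := by positivity
    nlinarith
  calc A * S true ≤ A * S false +
        A * ((occ Φ).card * ((2 : ℝ) ^ Fintype.card (Fin m → Bool) / 2)) := e1
    _ ≤ (1 + 1 / (8 * (m : ℝ))) * (A * S false) + τ := add_le_add e3 key

/-- A level can be dropped. -/
theorem drop {τ : ℝ} {c : V → ℝ} (hc : ∀ v, 0 ≤ c v) (hm : 1 ≤ m) {g : (V → Bool) → Bool}
    (H : Blind m g c τ) :
    Blind m (sel (m := m) g) (Sum.elim (fun _ => 0) (fun v => 1 * c v.2)) τ := by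
  obtain ⟨μ, h0, h1, hs, hE⟩ := H
  set i₀ : Fin m := ⟨0, hm⟩ with hi₀
  set em : (V → Bool) → ((Fin m → Bool) ⊕ (Fin m × V) → Bool) := fun y =>
    Sum.elim (fun z => z i₀) (fun v => if v.1 = i₀ then y v.2 else false) with hem
  have hsel : ∀ y, sel (m := m) g (em y) = g y := by
    intro y
    simp only [sel, hem, Sum.elim_inl, Sum.elim_inr, if_true]
  have hsum : ∀ (b : Bool) (G : ((Fin m → Bool) ⊕ (Fin m × V) → Bool) → ℝ),
      ∑ x, (∑ y, if em y = x then μ b y else 0) * G x = ∑ y, μ b y * G (em y) := by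
    intro b G
    simp only [sum_mul]
    rw [sum_comm]
    refine sum_congr rfl fun y _ => ?_
    simp only [ite_mul, zero_mul, sum_ite_eq, mem_univ, if_true]
  refine ⟨fun b x => ∑ y, if em y = x then μ b y else 0, ?_, ?_, ?_, ?_⟩
  · intro b x
    exact sum_nonneg fun y _ => by split_ifs; exacts [h0 b y, le_rfl]
  · intro b
    have := hsum b (fun _ => 1)
    simpa [h1] using this
  · intro b x hx
    obtain ⟨y, _, hy⟩ := exists_ne_zero_of_sum_ne_zero hx
    by_cases he : em y = x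
    · rw [if_pos he] at hy
      rw [← he, hsel]
      exact hs b y hy
    · rw [if_neg he] at hy
      exact absurd rfl hy
  · intro h hh
    rw [hsum, hsum]
    refine hE (fun y => h (em y)) ?_
    have h2 := hh.subst (W := V) (d := c)
      (Sum.elim (fun z => Sum.inr (z i₀)) (fun v => if v.1 = i₀ then Sum.inl v.2 else
        Sum.inr false)) (by
        intro v
        cases v with
        | inl z => simp
        | inr v =>
          simp only [Sum.elim_inr, one_mul]
          by_cases hv : v.1 = i₀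
          · rw [if_pos hv]; exact le_rfl
          · rw [if_neg hv]; exact hc _)
    have h3 : (fun y : V → Bool => h (em y)) = fun y : V → Bool => h (fun v => Sum.elim y id
        ((Sum.elim (fun z : Fin m → Bool => (Sum.inr (z i₀) : V ⊕ Bool))
          (fun v : Fin m × V => if v.1 = i₀ then Sum.inl v.2 else Sum.inr false)) v)) := by
      funext y
      congr 1
      funext v
      cases v with
      | inl z => rfl
      | inr v =>
        simp only [hem, Sum.elim_inr]
        by_cases hv : v.1 = i₀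
        · rw [if_pos hv, if_pos hv]; rfl
        · rw [if_neg hv, if_neg hv]; rfl
    rw [h3]
    exact h2

end

/-- The constant of the base. -/
def K₀ : ℕ := 288 ^ 6 * 432

/-- The base: every non-constant function. -/
theorem base {m n : ℕ} (hm : 1 ≤ m) (g : (Fin n → Bool) → Bool) (hg : ∃ x y, g x ≠ g y)
    {τ : ℝ} (hτ : 0 < τ) (hτ1 : τ ≤ 1) :
    Blind m g (fun _ => (K₀ : ℝ) * (m : ℝ) ^ 6 * (n : ℝ) ^ 3 / (τ * fsize g)) τ := by
  have hL1 : 1 ≤ fsize g := fsize_pos hg
  have hn : 1 ≤ n := by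
    rcases Nat.eq_zero_or_pos n with h | h
    · exfalso
      subst h
      obtain ⟨x, y, hxy⟩ := hg
      exact hxy (congrArg g (funext fun i => i.elim0))
    · exact h
  have hmR : (1 : ℝ) ≤ m := by exact_mod_cast hm
  have hnR : (1 : ℝ) ≤ n := by exact_mod_cast hn
  have hLR : (1 : ℝ) ≤ fsize g := by exact_mod_cast hL1
  have hg1 : ∃ x, g x = true := by
    obtain ⟨x, y, hxy⟩ := hg
    cases hx : g x
    · exact ⟨y, by cases hy : g y <;> simp_all⟩
    · exact ⟨x, hx⟩
  have hg0 : ∃ x, g x = false := by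
    obtain ⟨x, y, hxy⟩ := hg
    cases hx : g x
    · exact ⟨x, hx⟩
    · exact ⟨y, by cases hy : g y <;> simp_all⟩
  have hK : (0 : ℝ) < K₀ := by unfold K₀; positivity
  set κ : ℝ := (K₀ : ℝ) * (m : ℝ) ^ 6 * (n : ℝ) ^ 3 / (τ * fsize g) with hκ
  have hκ0 : 0 < κ := by positivity
  obtain ⟨μ, h0, h1, hs, hE⟩ := exists_hard (n := n) (m := m) (s := ⌊1 / κ⌋₊) hm g hg1 hg0 hτ hτ1
    (by
      intro t ht hcomp
      have h2 := fsize_le hcomp
      have h3 : ((288 ^ 6 * 216 * (m ^ 6 * n ^ 3 * (t * ⌊1 / κ⌋₊)) : ℕ) : ℝ) < fsize g := by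
        have h4 : ((⌊1 / κ⌋₊ : ℕ) : ℝ) ≤ 1 / κ := Nat.floor_le (by positivity)
        have h5 : (t : ℝ) ≤ 1 / τ := by
          rw [le_div_iff₀ hτ]; exact ht
        have h6 : (t : ℝ) * (⌊1 / κ⌋₊ : ℕ) ≤ 1 / τ * (1 / κ) :=
          mul_le_mul h5 h4 (Nat.cast_nonneg _) (by positivity)
        calc ((288 ^ 6 * 216 * (m ^ 6 * n ^ 3 * (t * ⌊1 / κ⌋₊)) : ℕ) : ℝ)
            = (288 : ℝ) ^ 6 * 216 * ((m : ℝ) ^ 6 * (n : ℝ) ^ 3 * ((t : ℝ) * (⌊1 / κ⌋₊ : ℕ))) := by
              push_cast; ring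
          _ ≤ (288 : ℝ) ^ 6 * 216 * ((m : ℝ) ^ 6 * (n : ℝ) ^ 3 * (1 / τ * (1 / κ))) :=
              mul_le_mul_of_nonneg_left (mul_le_mul_of_nonneg_left h6 (by positivity))
                (by positivity)
          _ = fsize g / 2 := by
              rw [hκ]
              unfold K₀
              push_cast
              field_simp
              norm_num
          _ < fsize g := by linarith
      have h4 : (fsize g : ℝ) ≤ ((288 ^ 6 * 216 * (m ^ 6 * n ^ 3 * (t * ⌊1 / κ⌋₊)) : ℕ) : ℝ) := by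
        exact_mod_cast h2
      linarith)
  refine ⟨μ, h0, h1, hs, fun h hh => hE h ?_⟩
  obtain ⟨F, hF, he⟩ := hh
  refine ⟨F, ?_, he⟩
  rw [cost_const] at hF
  apply Nat.le_floor
  rw [le_div_iff₀ hκ0, mul_comm]
  exact hF

end Pool.Agent.H.MP_027d00_lc.Iter
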