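import Pool.Agent.H.MP_027d00_lc.iter.Few

/-!
# Superpolynomial size
-/

set_option autoImplicit false

namespace Pool.Agent.H.MP_027d00_lc.Iter

open Finset

/-- The number of levels. -/
def lev (m : ℕ) : ℕ := Nat.log 3 m / 4

theorem lev_pow {m : ℕ} (hm : 1 ≤ m) : (3 ^ lev m) ^ 4 ≤ m := by
  calc (3 ^ lev m) ^ 4 = 3 ^ (lev m * 4) := by rw [pow_mul]
    _ ≤ 3 ^ Nat.log 3 m := Nat.pow_le_pow_right (by norm_num) (Nat.div_mul_le_self _ _)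
    _ ≤ m := Nat.pow_log_le_self 3 (by omega)

theorem lev_ge (C : ℕ) {m : ℕ} (hm : 3 ^ (4 * C) ≤ m) : C ≤ lev m := by
  unfold lev
  rw [Nat.le_div_iff_mul_le (by norm_num), mul_comm]
  exact Nat.le_log_of_pow_le (by norm_num) hm

theorem sup_clog (n : ℕ) (hn : 1 ≤ n) : (Nat.clog 2 (n + 1) : ℝ) ≤ 1 + 2 * Real.log n := by
  have h0 : 2 ^ Nat.clog 2 (n + 1) ≤ 2 * n := by
    have h1 := Nat.pow_pred_clog_lt_self (b := 2) (by norm_num) (x := n + 1) (by omega)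
    have hpos : 0 < Nat.clog 2 (n + 1) := Nat.clog_pos (by norm_num) (by omega)
    obtain ⟨a, ha⟩ : ∃ a, Nat.clog 2 (n + 1) = a + 1 := ⟨Nat.clog 2 (n + 1) - 1, by omega⟩
    rw [ha] at h1 ⊢
    simp only [Nat.pred_succ] at h1
    rw [pow_succ]
    omega
  have hnr : (1 : ℝ) ≤ n := by exact_mod_cast hn
  have h3 : Real.log ((2 : ℝ) ^ Nat.clog 2 (n + 1)) ≤ Real.log (2 * (n : ℝ)) := by
    apply Real.log_le_log (by positivity)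
    exact_mod_cast h0
  rw [Real.log_pow, Real.log_mul (by norm_num) (by linarith)] at h3
  have h4 : (1 : ℝ) / 2 ≤ Real.log 2 := by
    have := Real.log_two_gt_d9
    linarith
  have h5 : 0 ≤ Real.log n := Real.log_natCast_nonneg n
  nlinarith

/-- The numerical inequality. -/
theorem sup_num : ∃ m₀ : ℕ, 81 ≤ m₀ ∧ ∀ m : ℕ, m₀ ≤ m → ∀ e : ℕ, 2 * e ≤ 3 ^ lev m →
    Nat.clog 2 (m + 1) * lev m ^ 2 + 14 * Nat.clog 2 (m + 1) +
      (2 * Nat.clog 2 (m + 1) + 2 * Nat.sqrt m) * (2 * e) ≤ m * lev m := by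
  have h1 := ((isLittleO_log_rpow_atTop (show (0 : ℝ) < 1 / 4 by norm_num)).bound
    (show (0 : ℝ) < 1 / 4 by norm_num))
  have h2 := (tendsto_natCast_atTop_atTop (R := ℝ)).eventually h1
  have h3 : ∀ᶠ n : ℕ in Filter.atTop, (19 : ℝ) ≤ (n : ℝ) ^ ((1 : ℝ) / 4) :=
    ((tendsto_rpow_atTop (show (0 : ℝ) < 1 / 4 by norm_num)).comp
      (tendsto_natCast_atTop_atTop (R := ℝ))).eventually_ge_atTop _
  obtain ⟨n₀, hn₀⟩ := Filter.eventually_atTop.1 (h2.and h3)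
  refine ⟨max n₀ 81, le_max_right _ _, fun m hm e he => ?_⟩
  obtain ⟨h4, h5⟩ := hn₀ m ((le_max_left _ _).trans hm)
  have hm81 : 81 ≤ m := (le_max_right _ _).trans hm
  have hm1 : 1 ≤ m := by omega
  have hm0 : (0 : ℝ) ≤ m := Nat.cast_nonneg m
  set x : ℝ := (m : ℝ) ^ ((1 : ℝ) / 4) with hx
  have hx0 : 0 ≤ x := by rw [hx]; positivity
  rw [Real.norm_of_nonneg (Real.log_natCast_nonneg m), Real.norm_of_nonneg hx0] at h4
  have hx4 : x ^ 4 = m := by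
    rw [hx, ← Real.rpow_natCast, ← Real.rpow_mul hm0]
    norm_num
  have hl : (Nat.clog 2 (m + 1) : ℝ) ≤ x := by
    have := sup_clog m hm1
    linarith
  have ht : ((3 ^ lev m : ℕ) : ℝ) ≤ x := by
    have h6 : ((3 ^ lev m : ℕ) : ℝ) ^ 4 ≤ x ^ 4 := by
      rw [hx4]
      exact_mod_cast lev_pow hm1
    exact le_of_pow_le_pow_left₀ (by norm_num) hx0 h6
  have hk : (lev m : ℝ) ≤ x := by
    refine le_trans ?_ ht
    have : lev m < 3 ^ lev m := Nat.lt_pow_self (by norm_num)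
    exact_mod_cast this.le
  have hr : (Nat.sqrt m : ℝ) ≤ x ^ 2 := by
    have h6 : (Nat.sqrt m : ℝ) ^ 2 ≤ (x ^ 2) ^ 2 := by
      rw [← pow_mul, hx4]
      exact_mod_cast Nat.sqrt_le' m
    exact le_of_pow_le_pow_left₀ (by norm_num) (by positivity) h6
  have he' : ((2 * e : ℕ) : ℝ) ≤ x := le_trans (by exact_mod_cast he) ht
  have hk1 : 1 ≤ lev m := lev_ge 1 (by norm_num; omega)
  have hfin : Nat.clog 2 (m + 1) * lev m ^ 2 + 14 * Nat.clog 2 (m + 1) +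
      (2 * Nat.clog 2 (m + 1) + 2 * Nat.sqrt m) * (2 * e) ≤ m := by
    have hl0 : (0 : ℝ) ≤ Nat.clog 2 (m + 1) := Nat.cast_nonneg _
    have hk0 : (0 : ℝ) ≤ lev m := Nat.cast_nonneg _
    have hr0 : (0 : ℝ) ≤ Nat.sqrt m := Nat.cast_nonneg _
    have he0 : (0 : ℝ) ≤ ((2 * e : ℕ) : ℝ) := Nat.cast_nonneg _
    have e1 : (Nat.clog 2 (m + 1) : ℝ) * (lev m : ℝ) ^ 2 ≤ x * x ^ 2 :=
      mul_le_mul hl (pow_le_pow_left₀ hk0 hk 2) (by positivity) hx0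
    have e2 : (2 * (Nat.clog 2 (m + 1) : ℝ) + 2 * (Nat.sqrt m : ℝ)) * ((2 * e : ℕ) : ℝ) ≤
        (2 * x + 2 * x ^ 2) * x :=
      mul_le_mul (by linarith) he' he0 (by positivity)
    have e3 : x ≤ x ^ 3 := by
      have : x ^ 1 ≤ x ^ 3 := pow_le_pow_right₀ (by linarith) (by norm_num)
      simpa using this
    have e4 : x ^ 2 ≤ x ^ 3 := pow_le_pow_right₀ (by linarith) (by norm_num)
    have e5 : 19 * x ^ 3 ≤ x * x ^ 3 := mul_le_mul_of_nonneg_right h5 (by positivity)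
    have e6 : (Nat.clog 2 (m + 1) : ℝ) * (lev m : ℝ) ^ 2 + 14 * Nat.clog 2 (m + 1) +
        (2 * (Nat.clog 2 (m + 1) : ℝ) + 2 * (Nat.sqrt m : ℝ)) * ((2 * e : ℕ) : ℝ) ≤ m := by
      rw [← hx4]
      nlinarith
    exact_mod_cast e6
  exact hfin.trans (Nat.le_mul_of_pos_right m hk1)

/-- Superpolynomial size: `k = Nat.log 3 m / 4` levels, at most `2 ^ √m` times as many data leaves as
in the natural formula. -/
theorem super_poly (K : ℕ) : ∃ m₀ : ℕ, 81 ≤ m₀ ∧ ∀ m : ℕ, m₀ ≤ m → ∀ s : ℕ → ℕ,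
    (2 ^ m) ^ ((3 ^ (lev m + 1) - 3) / 2) ≤ (K * m ^ 6) * (K * m) ^ ((3 ^ lev m - 1) / 2) *
      s 0 * ∏ j ∈ range (lev m), s (j + 1) ^ (2 * 3 ^ j) →
    (∀ j < lev m, s (j + 1) ≤ 2 ^ Nat.sqrt m * (2 ^ m) ^ (lev m - j)) →
    ∀ N : ℕ, N ≤ 2 ^ m * (m + 1) ^ lev m → N ^ lev m ≤ s 0 ^ 2 := by
  obtain ⟨m₁, hm₁, hnum⟩ := sup_num
  refine ⟨max m₁ K, hm₁.trans (le_max_left _ _), fun m hm s hM hs N hN => ?_⟩
  have hmm : m₁ ≤ m := (le_max_left _ _).trans hm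
  have hKm : K ≤ m := (le_max_right _ _).trans hm
  obtain ⟨k, hk⟩ : ∃ k, k = lev m := ⟨_, rfl⟩
  obtain ⟨e, he⟩ : ∃ e, e = (3 ^ k - 1) / 2 := ⟨_, rfl⟩
  obtain ⟨l, hl⟩ : ∃ l, l = Nat.clog 2 (m + 1) := ⟨_, rfl⟩
  obtain ⟨r, hr⟩ : ∃ r, r = Nat.sqrt m := ⟨_, rfl⟩
  have hhalf := few_half k
  have hnum' := hnum m hmm e (by rw [← hk]; omega)
  rw [← hl, ← hk, ← hr] at hnum'
  have hml : m + 1 ≤ 2 ^ l := by rw [hl]; exact Nat.le_pow_clog (by norm_num) _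
  have hfew := few_reads (R := 2 ^ m) (D := 2 ^ Nat.sqrt m) (L := 1) (A := K * m ^ 6)
    (B := K * m) (k := lev m) (by positivity) s (by rw [mul_one]; exact hM) hs
  rw [← hk, ← hr, ← he, mul_one] at hfew
  obtain ⟨T, hT⟩ : ∃ T, T = K * m ^ 6 * (K * m * (2 ^ r) ^ 2) ^ e := ⟨_, rfl⟩
  rw [← hT] at hfew
  have hTpos : 0 < T := by
    rcases Nat.eq_zero_or_pos T with h0 | h0
    · rw [h0, zero_mul] at hfew
      exact absurd hfew (Nat.not_le.2 (by positivity))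
    · exact h0
  have hTle : T ≤ 2 ^ (7 * l + (2 * l + 2 * r) * e) := by
    have hK2 : K ≤ 2 ^ l := by omega
    have hm2 : m ≤ 2 ^ l := by omega
    calc T = K * m ^ 6 * (K * m * (2 ^ r) ^ 2) ^ e := hT
      _ ≤ 2 ^ l * (2 ^ l) ^ 6 * (2 ^ l * 2 ^ l * (2 ^ r) ^ 2) ^ e := by gcongr
      _ = 2 ^ (7 * l + (2 * l + 2 * r) * e) := by
          rw [← pow_mul, ← pow_mul, ← pow_add, ← pow_add, ← pow_add, ← pow_mul, ← pow_add]
          congr 1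
          ring
  have hkey : T ^ 2 * (m + 1) ^ (k ^ 2) ≤ (2 ^ m) ^ k := by
    calc T ^ 2 * (m + 1) ^ (k ^ 2) ≤ (2 ^ (7 * l + (2 * l + 2 * r) * e)) ^ 2 * (2 ^ l) ^ (k ^ 2) := by
          gcongr
      _ = 2 ^ (l * k ^ 2 + 14 * l + (2 * l + 2 * r) * (2 * e)) := by
          rw [← pow_mul, ← pow_mul, ← pow_add]
          congr 1
          ring
      _ ≤ 2 ^ (m * k) := Nat.pow_le_pow_right (by norm_num) hnum'
      _ = (2 ^ m) ^ k := by rw [pow_mul]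
  rw [← hk] at hN ⊢
  have hfin : T ^ 2 * N ^ k ≤ T ^ 2 * s 0 ^ 2 := by
    calc T ^ 2 * N ^ k ≤ T ^ 2 * (2 ^ m * (m + 1) ^ k) ^ k :=
          Nat.mul_le_mul_left _ (Nat.pow_le_pow_left hN k)
      _ = (2 ^ m) ^ k * (T ^ 2 * (m + 1) ^ (k ^ 2)) := by
          rw [mul_pow, ← pow_mul (m + 1), sq k]
          ring
      _ ≤ (2 ^ m) ^ k * (2 ^ m) ^ k := Nat.mul_le_mul_left _ hkey
      _ ≤ (T * s 0) * (T * s 0) := Nat.mul_le_mul hfew hfew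
      _ = T ^ 2 * s 0 ^ 2 := by ring
  exact Nat.le_of_mul_le_mul_left hfin (pow_pos hTpos 2)

/-- Every polynomial bound is exceeded. -/
theorem super_poly' (K C : ℕ) : ∃ m₀ : ℕ, 81 ≤ m₀ ∧ ∀ m : ℕ, m₀ ≤ m → ∀ s : ℕ → ℕ,
    (2 ^ m) ^ ((3 ^ (lev m + 1) - 3) / 2) ≤ (K * m ^ 6) * (K * m) ^ ((3 ^ lev m - 1) / 2) *
      s 0 * ∏ j ∈ range (lev m), s (j + 1) ^ (2 * 3 ^ j) →
    (∀ j < lev m, s (j + 1) ≤ 2 ^ Nat.sqrt m * (2 ^ m) ^ (lev m - j)) →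
    ∀ N : ℕ, 1 ≤ N → N ≤ 2 ^ m * (m + 1) ^ lev m → N ^ C ≤ s 0 := by
  obtain ⟨m₁, hm₁, h⟩ := super_poly K
  refine ⟨max m₁ (3 ^ (4 * (2 * C))), hm₁.trans (le_max_left _ _), fun m hm s hM hs N hN1 hN => ?_⟩
  have h1 := h m ((le_max_left _ _).trans hm) s hM hs N hN
  have h2 : 2 * C ≤ lev m := lev_ge _ ((le_max_right _ _).trans hm)
  have h3 : (N ^ C) ^ 2 ≤ s 0 ^ 2 := by
    calc (N ^ C) ^ 2 = N ^ (2 * C) := by rw [← pow_mul, mul_comm]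
      _ ≤ N ^ lev m := Nat.pow_le_pow_right hN1 h2
      _ ≤ s 0 ^ 2 := h1
  exact (Nat.pow_le_pow_iff_left (by norm_num)).1 h3

end Pool.Agent.H.MP_027d00_lc.Iter
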